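import Mathlib

/-!
# Rich trees of words and systems of palindromic complete returns

A set `𝓑` of words is a *rich tree* (`RT 𝓑`) if one can attach to every nonempty beginning `u` of a
word of `𝓑` a nonempty palindrome ending `u`, in an injective way.

A *good system* is a palindrome `P` with a set `Λ` of words `ψ` such that every `P ++ ψ` is a
palindrome in which `P` occurs exactly twice, and such that these palindromes form a rich tree.
-/

namespace Pool.Agent.Lib.MP_4d23dd_co

variable {α : Type*}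

/-- Nonempty beginnings of the words of `𝓑`. -/
def IsNode (𝓑 : Set (List α)) (u : List α) : Prop := u ≠ [] ∧ ∃ w ∈ 𝓑, u <+: w

/-- Rich tree: an injective assignment of nonempty palindromic endings to the nodes. -/
def RT (𝓑 : Set (List α)) : Prop :=
  ∃ δ : List α → List α,
    (∀ u, IsNode 𝓑 u → (δ u).reverse = δ u ∧ δ u ≠ [] ∧ δ u <:+ u) ∧
    ∀ u u', IsNode 𝓑 u → IsNode 𝓑 u' → δ u = δ u' → u = u'

lemma RT_of_rel {𝓑 : Set (List α)} (R : List α → List α → Prop)
    (h1 : ∀ u, IsNode 𝓑 u → ∃ κ, R u κ ∧ κ.reverse = κ ∧ κ ≠ [] ∧ κ <:+ u)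
    (h2 : ∀ u u' κ, R u κ → R u' κ → u = u') : RT 𝓑 := by
  classical
  refine ⟨fun u => if h : IsNode 𝓑 u then (h1 u h).choose else [], ?_, ?_⟩
  · intro u hu
    simp only [hu, dif_pos]
    exact (h1 u hu).choose_spec.2
  · intro u u' hu hu' h
    simp only [hu, hu', dif_pos] at h
    have e1 := (h1 u hu).choose_spec.1
    have e2 := (h1 u' hu').choose_spec.1
    rw [h] at e1
    exact h2 _ _ _ e1 e2

lemma RT.mono {𝓑 𝓑' : Set (List α)} (h : RT 𝓑) (hs : ∀ u, IsNode 𝓑' u → IsNode 𝓑 u) : RT 𝓑' := by
  obtain ⟨δ, h1, h2⟩ := h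
  exact ⟨δ, fun u hu => h1 u (hs u hu), fun u u' hu hu' => h2 u u' (hs u hu) (hs u' hu')⟩

/-- A good system. -/
structure Good (P : List α) (Λ : Set (List α)) : Prop where
  palP : P.reverse = P
  pal : ∀ ψ ∈ Λ, (P ++ ψ).reverse = P ++ ψ
  ne : ∀ ψ ∈ Λ, ψ ≠ []
  ret : ∀ ψ ∈ Λ, ∀ s, s <+: ψ → P <:+ P ++ s → s = [] ∨ s = ψ
  rt : RT {w | ∃ ψ ∈ Λ, w = P ++ ψ}

namespace Good

variable {P : List α} {Λ : Set (List α)}

lemma swap (h : Good P Λ) {ψ : List α} (hψ : ψ ∈ Λ) : P ++ ψ = ψ.reverse ++ P := by
  have := h.pal ψ hψ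
  rw [List.reverse_append, h.palP] at this
  exact this.symm

/-- `P ++ U.flatten = (U.map reverse).flatten ++ P` for words `U` over `Λ` -/
lemma swap_flatten (h : Good P Λ) : ∀ {U : List (List α)}, (∀ c ∈ U, c ∈ Λ) →
    P ++ U.flatten = (U.map List.reverse).flatten ++ P
  | [], _ => by simp
  | c :: U, hU => by
    have hc : c ∈ Λ := hU c (by simp)
    have hU' : ∀ d ∈ U, d ∈ Λ := fun d hd => hU d (by simp [hd])
    rw [List.flatten_cons, ← List.append_assoc, h.swap hc, List.append_assoc,
      h.swap_flatten hU', List.map_cons, List.flatten_cons, List.append_assoc]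

lemma pal_flatten (h : Good P Λ) {U : List (List α)} (hU : ∀ c ∈ U, c ∈ Λ) (hr : U.reverse = U) :
    (P ++ U.flatten).reverse = P ++ U.flatten := by
  rw [List.reverse_append, h.palP, h.swap_flatten hU, List.reverse_flatten, ← List.map_reverse, hr]

/-- prefix code property -/
lemma code (h : Good P Λ) {ψ ψ' : List α} (hψ : ψ ∈ Λ) (hψ' : ψ' ∈ Λ) (hp : ψ <+: ψ') : ψ = ψ' := by
  have h1 : P <:+ P ++ ψ := by rw [h.swap hψ]; exact List.suffix_append _ _
  rcases h.ret ψ' hψ' ψ hp h1 with h2 | h2
  · exact absurd h2 (h.ne ψ hψ)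
  · exact h2

/-- unique decoding -/
lemma flatten_inj (h : Good P Λ) : ∀ {U V : List (List α)}, (∀ c ∈ U, c ∈ Λ) → (∀ c ∈ V, c ∈ Λ) →
    U.flatten = V.flatten → U = V
  | [], [], _, _, _ => rfl
  | [], c :: V, _, hV, he => by
    have hc := h.ne c (hV c (by simp))
    simp at he
    exact absurd he.1 hc
  | c :: U, [], hU, _, he => by
    have hc := h.ne c (hU c (by simp))
    simp at he
    exact absurd he.1 hc
  | c :: U, d :: V, hU, hV, he => by
    have hc : c ∈ Λ := hU c (by simp)
    have hd : d ∈ Λ := hV d (by simp)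
    simp only [List.flatten_cons] at he
    have hcd : c = d := by
      have h1 : c <+: d ++ V.flatten := he ▸ List.prefix_append _ _
      have h2 : d <+: d ++ V.flatten := List.prefix_append _ _
      rcases List.prefix_or_prefix_of_prefix h1 h2 with h3 | h3
      · exact h.code hc hd h3
      · exact (h.code hd hc h3).symm
    subst hcd
    have h3 := List.append_cancel_left he
    rw [h.flatten_inj (fun e he => hU e (by simp [he])) (fun e he => hV e (by simp [he])) h3]

/-- The central palindromes: `κ P Q s = s.reverse ++ P ++ Q.flatten ++ s`. -/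
def kap (P : List α) (Q : List (List α)) (s : List α) : List α :=
  s.reverse ++ (P ++ Q.flatten ++ s)

lemma kap_pal (h : Good P Λ) {Q : List (List α)} (hQ : ∀ c ∈ Q, c ∈ Λ) (hr : Q.reverse = Q)
    (s : List α) : (kap P Q s).reverse = kap P Q s := by
  unfold kap
  have := h.pal_flatten hQ hr
  simp only [List.reverse_append, List.reverse_reverse] at this ⊢
  rw [this]
  simp

/-- `kap` with a full letter as tail is `kap` with empty tail of a longer word. -/
lemma kap_full (h : Good P Λ) {Q : List (List α)} {z : List α} (hz : z ∈ Λ) :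
    kap P Q z = kap P (z :: Q ++ [z]) [] := by
  unfold kap
  have := h.swap hz
  simp only [List.reverse_nil, List.nil_append, List.append_nil, List.flatten_append,
    List.flatten_cons, List.flatten_nil, ← List.append_assoc, List.cons_append]
  rw [← this]

/-- A proper beginning of a letter. -/
def Proper (Λ : Set (List α)) (s : List α) : Prop := ∃ ψ ∈ Λ, s <+: ψ ∧ s ≠ ψ

lemma proper_nil_of_mem (h : Good P Λ) {ψ : List α} (hψ : ψ ∈ Λ) : Proper Λ [] :=
  ⟨ψ, hψ, List.nil_prefix, (h.ne ψ hψ).symm⟩

/-- if `P` occurs in `P ++ s` (`s` a proper beginning of a letter) then only at the front. -/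
lemma occ_proper (h : Good P Λ) {s X Y : List α} (hs : Proper Λ s) (he : P ++ s = X ++ P ++ Y) :
    X = [] ∧ Y = s := by
  obtain ⟨ψ, hψ, hsψ, hne⟩ := hs
  -- X ++ P is a prefix of P ++ s with length ≥ |P|
  have h1 : X ++ P <+: P ++ s := by rw [he]; exact List.prefix_append _ _
  have h2 : P <+: P ++ s := List.prefix_append _ _
  have h3 : P <+: X ++ P := List.prefix_of_prefix_length_le h2 h1 (by simp)
  obtain ⟨s1, hs1⟩ := h3
  have h4 : s1 <+: s := by
    rw [← hs1] at h1
    exact (List.prefix_append_right_inj P).mp h1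
  have h5 : P <:+ P ++ s1 := by rw [hs1]; exact List.suffix_append _ _
  have h6 : s1 = [] := by
    rcases h.ret ψ hψ s1 (h4.trans hsψ) h5 with h6 | h6
    · exact h6
    · exfalso
      subst h6
      exact hne (hsψ.eq_of_length (le_antisymm hsψ.length_le h4.length_le))
  subst h6
  have h7 : X = [] := by
    have := congrArg List.length hs1
    simp at this
    exact this
  subst h7
  refine ⟨rfl, ?_⟩
  simpa using he.symm

/-- The tail length is determined by `kap` (proper tails). -/
lemma kap_tail_aux (h : Good P Λ) {Q Q' : List (List α)} {s s' : List α}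
    (hs : Proper Λ s) (hs' : Proper Λ s') (hk : kap P Q s = kap P Q' s')
    (hl : s.length ≤ s'.length) : s.length = s'.length := by
  -- s.reverse ++ P is a prefix of s'.reverse ++ P
  have h1 : s.reverse ++ P <+: kap P Q s := by
    unfold kap
    refine ⟨Q.flatten ++ s, by simp⟩
  have h2 : s'.reverse ++ P <+: kap P Q s := by
    rw [hk]
    unfold kap
    refine ⟨Q'.flatten ++ s', by simp⟩
  have h3 : s.reverse ++ P <+: s'.reverse ++ P :=
    List.prefix_of_prefix_length_le h1 h2 (by simp; exact hl)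
  obtain ⟨Y, hY⟩ := h3
  -- reverse: P ++ s' = Y.reverse ++ P ++ s
  have h4 : P ++ s' = Y.reverse ++ P ++ s := by
    have := congrArg List.reverse hY
    simp only [List.reverse_append, List.reverse_reverse, h.palP] at this
    rw [← this]
    simp
  have h5 := (h.occ_proper hs' h4).2
  rw [h5]

lemma kap_inj (h : Good P Λ) {Q Q' : List (List α)} {s s' : List α}
    (hQ : ∀ c ∈ Q, c ∈ Λ) (hQ' : ∀ c ∈ Q', c ∈ Λ)
    (hs : Proper Λ s) (hs' : Proper Λ s') (hk : kap P Q s = kap P Q' s') :
    Q = Q' ∧ s = s' := by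
  have hl : s.length = s'.length := by
    rcases le_total s.length s'.length with h1 | h1
    · exact h.kap_tail_aux hs hs' hk h1
    · exact (h.kap_tail_aux hs' hs hk.symm h1).symm
  unfold kap at hk
  have h1 := List.append_inj hk (by simp [hl])
  have h2 := List.append_inj' h1.2 hl
  refine ⟨?_, h2.2⟩
  exact h.flatten_inj hQ hQ' (List.append_cancel_left h2.1)

end Good

end Pool.Agent.Lib.MP_4d23dd_co
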