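import Pool.Agent.Lib.MP_4d23dd_co.Step

/-!
# Counting palindromic factors, and the rich words made from a good system
-/

namespace Pool.Agent.Lib.MP_4d23dd_co

variable {α : Type*}

lemma finite_factors (w : List α) : {u : List α | u <:+: w ∧ u.reverse = u}.Finite := by
  refine Set.Finite.subset (s := {u | u ∈ w.sublists}) (List.finite_toSet _) ?_
  rintro u ⟨hu, -⟩
  exact List.mem_sublists.mpr hu.sublist

/-- At most `|w| + 1` palindromic factors (Droubay, Justin, Pirillo). -/
lemma ncard_pal_le (w : List α) :
    Set.ncard {u : List α | u <:+: w ∧ u.reverse = u} ≤ w.length + 1 := by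
  classical
  have hex : ∀ u : List α, u <:+: w → ∃ i, u <:+ w.take i := by
    rintro u ⟨s, t, h⟩
    refine ⟨(s ++ u).length, s, ?_⟩
    rw [← h, List.take_left']
    rfl
  set f : List α → ℕ := fun u => sInf {i | u <:+ w.take i} with hf
  have hle : ∀ u : List α, u <:+: w → f u ≤ w.length := by
    intro u hu
    obtain ⟨i, hi⟩ := hex u hu
    have h1 : u <:+ w.take (min i w.length) := by
      rcases le_total i w.length with h | h
      · rw [min_eq_left h]; exact hi
      · rw [min_eq_right h]
        rw [List.take_of_length_le h] at hi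
        simpa using hi
    exact (Nat.sInf_le h1).trans (min_le_right _ _)
  have hcard : Set.ncard (Set.Iic w.length : Set ℕ) = w.length + 1 := by
    rw [← Finset.coe_Iic, Set.ncard_coe_finset, Nat.card_Iic]
  rw [← hcard]
  refine Set.ncard_le_ncard_of_injOn f ?_ ?_ (Set.finite_Iic _)
  · rintro u ⟨hu, -⟩
    exact hle u hu
  · -- injectivity
    have key : ∀ u u' : List α, u <:+: w → u' <:+: w → u.reverse = u → u'.reverse = u' →
        f u = f u' → u.length ≤ u'.length → u = u' := by
      intro u u' hu hu' hr hr' he hl
      have h1 : u <:+ w.take (f u) := Nat.sInf_mem (hex u hu)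
      have h2 : u' <:+ w.take (f u') := Nat.sInf_mem (hex u' hu')
      rw [← he] at h2
      have h3 : u <:+ u' := List.suffix_of_suffix_length_le h1 h2 hl
      have h4 : u <+: u' := by
        rw [← hr, ← hr']
        exact List.reverse_prefix.mpr h3
      by_contra hne
      have hlt : u.length < u'.length := by
        rcases Nat.lt_or_ge u.length u'.length with h | h
        · exact h
        · exact absurd (h3.eq_of_length (le_antisymm hl h)) hne
      obtain ⟨X, hX⟩ := h2
      obtain ⟨Y, hY⟩ := h4
      have h5 : u <:+ w.take (X.length + u.length) := by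
        refine ⟨X, ?_⟩
        have h6 : X ++ u <+: w := by
          refine List.IsPrefix.trans ?_ (List.take_prefix (f u) w)
          rw [← hX, ← hY]
          exact ⟨Y, by simp⟩
        have h7 := List.prefix_iff_eq_take.mp h6
        rw [List.length_append] at h7
        exact h7
      have h6 := Nat.sInf_le (s := {i | u <:+ w.take i}) h5
      have h7 : (w.take (f u)).length ≤ f u := by simp
      have h8 : X.length + u'.length = (w.take (f u)).length := by rw [← hX]; simp
      have h9 : f u ≤ X.length + u.length := h6
      omega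
    rintro u ⟨hu, hr⟩ u' ⟨hu', hr'⟩ he
    rcases le_total u.length u'.length with h | h
    · exact key u u' hu hu' hr hr' he h
    · exact (key u' u hu' hu hr' hr he.symm h).symm

/-- A rich tree consisting of one word: the word is rich. -/
lemma rich_of_RT {w : List α} (h : RT {v | v = w}) :
    Set.ncard {u : List α | u <:+: w ∧ u.reverse = u} = w.length + 1 := by
  classical
  refine le_antisymm (ncard_pal_le w) ?_
  obtain ⟨δ, h1, h2⟩ := h
  have hnode : ∀ i, 1 ≤ i → i ≤ w.length → IsNode {v | v = w} (w.take i) := by
    intro i hi hi'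
    refine ⟨?_, w, rfl, List.take_prefix _ _⟩
    intro h0
    have := congrArg List.length h0
    rw [List.length_take, List.length_nil] at this
    omega
  set F : ℕ → List α := fun i => if i = 0 then [] else δ (w.take i) with hF
  have hcard : Set.ncard (Set.Iic w.length : Set ℕ) = w.length + 1 := by
    rw [← Finset.coe_Iic, Set.ncard_coe_finset, Nat.card_Iic]
  rw [← hcard]
  refine Set.ncard_le_ncard_of_injOn F ?_ ?_ (finite_factors w)
  · intro i hi
    simp only [Set.mem_Iic] at hi
    by_cases h0 : i = 0
    · simp [hF, h0]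
    · simp only [hF, h0, if_false]
      obtain ⟨e1, e2, e3⟩ := h1 _ (hnode i (by omega) hi)
      refine ⟨?_, e1⟩
      exact e3.isInfix.trans (List.take_prefix _ _).isInfix
  · intro i hi j hj he
    simp only [Set.mem_Iic] at hi hj
    by_cases h0 : i = 0 <;> by_cases h0' : j = 0
    · rw [h0, h0']
    · exfalso
      simp only [hF, h0, h0', if_true, if_false] at he
      exact (h1 _ (hnode j (by omega) hj)).2.1 he.symm
    · exfalso
      simp only [hF, h0, h0', if_true, if_false] at he
      exact (h1 _ (hnode i (by omega) hi)).2.1 he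
    · simp only [hF, h0, h0', if_false] at he
      have := h2 _ _ (hnode i (by omega) hi) (hnode j (by omega) hj) he
      have := congrArg List.length this
      simp only [List.length_take] at this
      omega

lemma Good.mono {P : List α} {Λ Λ' : Set (List α)} (h : Good P Λ) (hs : Λ' ⊆ Λ) : Good P Λ' := by
  refine ⟨h.palP, fun ψ hψ => h.pal ψ (hs hψ), fun ψ hψ => h.ne ψ (hs hψ),
    fun ψ hψ => h.ret ψ (hs hψ), h.rt.mono ?_⟩
  rintro u ⟨hu, w, ⟨ψ, hψ, rfl⟩, hp⟩
  exact ⟨hu, _, ⟨ψ, hs hψ, rfl⟩, hp⟩

lemma Good.prefixFree {P : List α} {Λ : Set (List α)} (h : Good P Λ) : PrefixFree Λ :=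
  fun _ hψ _ hψ' hp => h.code hψ hψ' hp

lemma PathTree.nodup {β : Type*} {Λ : Set β} {root : β} {path : β → List β}
    (h : PathTree Λ root path) {x : β} (hx : x ∈ Λ) : (path x).Nodup := by
  have key : ∀ D : List β, D <+: path x → D.Nodup := by
    intro D
    induction D using List.reverseRecOn with
    | nil => intro _; simp
    | append_singleton D z ih =>
      intro hp
      have h1 := ih ((List.prefix_append _ _).trans hp)
      obtain ⟨hz, hD⟩ := h.of_prefix hx hp
      rw [List.nodup_append]
      refine ⟨h1, by simp, ?_⟩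
      intro a ha b hb hab
      rw [List.mem_singleton.mp hb] at hab
      subst hab
      rw [hD] at ha
      exact h.notMem_dn hz ha
  exact key _ List.prefix_rfl

/-- The rich word belonging to a finite nonempty subset `B` of the letters. -/
theorem exists_rich_list {P : List (Fin 2)} {Λ : Set (List (Fin 2))} (h : Good P Λ)
    (B : Finset (List (Fin 2))) (hB : ∀ x ∈ B, x ∈ Λ) (hne : B.Nonempty) :
    ∃ l : List (List (Fin 2)), (∀ x, x ∈ l ↔ x ∈ B) ∧ l.Nodup ∧
      Set.ncard {u : List (Fin 2) | u <:+: P ++ l.flatten ∧ u.reverse = u} =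
        (P ++ l.flatten).length + 1 := by
  classical
  have hg : Good P (B : Set (List (Fin 2))) := h.mono (fun x hx => hB x hx)
  obtain ⟨root, path, hc, y, hy, hall⟩ := exists_chain (B.sup List.length) (B : Set _)
    (by exact_mod_cast hne) (fun ψ hψ => Finset.le_sup (f := List.length) hψ) hg.prefixFree
  refine ⟨path y, ?_, hc.tree.nodup hy, ?_⟩
  · intro x
    exact ⟨fun hx => hc.tree.mem y hy x hx, fun hx => hall x hx⟩
  · apply rich_of_RT
    have h1 := hg.subst ⟨y, hy⟩ {W | ∃ x ∈ (B : Set (List (Fin 2))), ∃ q, 1 ≤ q ∧ W = wd path x q}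
      ?_ ?_
    · refine h1.mono ?_
      rintro u ⟨hu, w, rfl, hp⟩
      refine ⟨hu, _, ⟨wd path y 1, ⟨y, hy, 1, le_rfl, rfl⟩, rfl⟩, hp.trans ?_⟩
      rw [List.prefix_append_right_inj]
      have : wd path y 1 = path y ++ (path y).dropLast.reverse := by
        unfold wd
        rw [List.replicate_one, hc.tree.dn_append hy]
      rw [this, List.flatten_append]
      exact List.prefix_append _ _
    · rintro W ⟨x, hx, q, hq, rfl⟩
      exact wd_mem hc.tree hx q
    · intro s _
      exact hc.tree.lrich (hc.conn s)

end Pool.Agent.Lib.MP_4d23dd_co
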