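import Pool.Agent.Lib.MP_4d23dd_co.Num

/-!
# Many rich words, and the failure of the conjectured upper bound
-/

namespace Pool.Agent.Lib.MP_4d23dd_co

open Filter Finset

/-- the set of the binary rich words of length `n` -/
def richSet (n : ℕ) : Set (List (Fin 2)) :=
  {w : List (Fin 2) | w.length = n ∧
    Set.ncard {u : List (Fin 2) | u <:+: w ∧ u.reverse = u} = w.length + 1}

lemma richSet_finite (n : ℕ) : (richSet n).Finite :=
  (List.finite_length_eq (Fin 2) n).subset (fun _ hw => hw.1)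

/-- Many rich words from a good system. -/
lemma many_words {P : List (Fin 2)} {Λ : Finset (List (Fin 2))}
    (h : Good P (Λ : Set (List (Fin 2)))) {L : ℕ} (hP : P.length ≤ L)
    (hL : ∀ ψ ∈ Λ, ψ.length ≤ L) :
    2 ^ Λ.card - 1 ≤ ∑ n ∈ range (L + Λ.card * L + 1), (richSet n).ncard := by
  classical
  set N := L + Λ.card * L with hN
  have hex : ∀ B : Finset (List (Fin 2)), B ∈ Λ.powerset.erase ∅ →
      ∃ l : List (List (Fin 2)), (∀ x, x ∈ l ↔ x ∈ B) ∧ l.Nodup ∧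
      Set.ncard {u : List (Fin 2) | u <:+: P ++ l.flatten ∧ u.reverse = u} =
        (P ++ l.flatten).length + 1 := by
    intro B hB
    rw [Finset.mem_erase, Finset.mem_powerset] at hB
    exact exists_rich_list h B (fun x hx => hB.2 hx) (Finset.nonempty_iff_ne_empty.mpr hB.1)
  choose! F hF1 hF2 hF3 using hex
  set G : Finset (List (Fin 2)) → List (Fin 2) := fun B => P ++ (F B).flatten with hG
  have hcardF : ∀ B ∈ Λ.powerset.erase ∅, (F B).length ≤ Λ.card := by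
    intro B hB
    have h1 : (F B).toFinset = B := by
      ext x
      rw [List.mem_toFinset]
      exact hF1 B hB x
    have h2 : (F B).length = B.card := by
      rw [← List.toFinset_card_of_nodup (hF2 B hB), h1]
    rw [h2]
    rw [Finset.mem_erase, Finset.mem_powerset] at hB
    exact Finset.card_le_card hB.2
  have hlen : ∀ B ∈ Λ.powerset.erase ∅, (G B).length ≤ N := by
    intro B hB
    have hflat : ∀ T : List (List (Fin 2)), (∀ c ∈ T, c ∈ Λ) → T.flatten.length ≤ T.length * L := by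
      intro T hT
      induction T with
      | nil => simp
      | cons c T ih =>
        have e1 := ih (fun d hd => hT d (by simp [hd]))
        have e2 := hL c (hT c (by simp))
        simp only [List.flatten_cons, List.length_append, List.length_cons]
        nlinarith
    have h1 := hflat (F B) (fun c hc => by
      have := (hF1 B hB c).mp hc
      rw [Finset.mem_erase, Finset.mem_powerset] at hB
      exact hB.2 this)
    have h2 := hcardF B hB
    simp only [hG, List.length_append]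
    have h3 : (F B).length * L ≤ Λ.card * L := Nat.mul_le_mul_right _ h2
    omega
  have hinj : Set.InjOn G (Λ.powerset.erase ∅ : Finset _) := by
    intro B hB B' hB' he
    have hB0 : B ∈ Λ.powerset.erase ∅ := hB
    have hB0' : B' ∈ Λ.powerset.erase ∅ := hB'
    simp only [hG] at he
    have h1 := List.append_cancel_left he
    have hm : ∀ B ∈ Λ.powerset.erase ∅, ∀ c ∈ F B, c ∈ (Λ : Set (List (Fin 2))) := by
      intro B hB c hc
      have := (hF1 B hB c).mp hc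
      rw [Finset.mem_erase, Finset.mem_powerset] at hB
      exact hB.2 this
    have h2 := h.flatten_inj (hm B hB0) (hm B' hB0') h1
    ext x
    rw [← hF1 B hB0, ← hF1 B' hB0', h2]
  have hmap : ∀ B ∈ Λ.powerset.erase ∅, (G B).length ∈ range (N + 1) := by
    intro B hB
    rw [Finset.mem_range]
    have := hlen B hB
    omega
  have h1 : (Λ.powerset.erase ∅).card = 2 ^ Λ.card - 1 := by
    rw [Finset.card_erase_of_mem (by simp), Finset.card_powerset]
  rw [← h1, Finset.card_eq_sum_card_fiberwise hmap]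
  refine Finset.sum_le_sum (fun n _ => ?_)
  rw [← Set.ncard_coe_finset]
  refine Set.ncard_le_ncard_of_injOn G ?_ ?_ (richSet_finite n)
  · intro B hB
    simp only [Finset.coe_filter, Set.mem_ofPred_eq] at hB
    refine ⟨hB.2, ?_⟩
    have := hF3 B hB.1
    exact this
  · intro B hB B' hB' he
    simp only [Finset.coe_filter, Set.mem_ofPred_eq] at hB hB'
    exact hinj hB.1 hB'.1 he

lemma arith1 (i t u : ℕ) (h1 : 100 ≤ t) (h2 : i ≤ u) :
    8 * (3 * i + 37) + 8 * (14 * t + 46) + 16 ≤ 128 * t + 128 * u := by omega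

/-- Good systems with many letters. -/
lemma exists_sysK (i : ℕ) : ∃ l : ℕ, 8 * (3 * i + 37) + 8 * l + 16 ≤ 2 ^ (3 * i + 37) ∧
    SysK l (4 ^ (3 * i + 37) * 2 ^ l) := by
  obtain ⟨t, ht⟩ : ∃ t : ℕ, t = 4 ^ (i + 15) := ⟨_, rfl⟩
  have ht1 : 1073741824 ≤ t := by
    have h0 : 4 ^ 15 ≤ 4 ^ (i + 15) := Nat.pow_le_pow_right (by norm_num) (by omega)
    rw [ht]
    refine le_trans ?_ h0
    norm_num
  have htr' : (1024 : ℝ) ≤ t := by
    have : 1024 ≤ t := le_trans (by norm_num) ht1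
    exact_mod_cast this
  have h1 := step_sys sys_base (by norm_num) t
  have h2 := step_sys h1 (by linarith) t
  obtain ⟨w2, hw2⟩ : ∃ w2 : ℝ, w2 = (((3 / 2 : ℝ) - 1) * t / 8 - 1) * t / 8 := ⟨_, rfl⟩
  rw [← hw2] at h2
  have hw2' : (t : ℝ) ^ 2 / 256 ≤ w2 := by rw [hw2]; nlinarith
  have hw2'' : (1 : ℝ) < w2 := by nlinarith
  have h3 := step_sys h2 hw2'' t
  obtain ⟨w3, hw3⟩ : ∃ w3 : ℝ, w3 = (w2 - 1) * t / 8 := ⟨_, rfl⟩
  rw [← hw3] at h3
  have hw3' : (t : ℝ) ^ 3 / 4096 ≤ w3 := by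
    have e1 : (t : ℝ) ^ 2 / 512 ≤ w2 - 1 := by nlinarith
    have e2 : (t : ℝ) ^ 2 / 512 * t ≤ (w2 - 1) * t :=
      mul_le_mul_of_nonneg_right e1 (by positivity)
    rw [hw3]
    nlinarith
  have hw3'' : (t : ℝ) ^ 3 / 8192 ≤ w3 - 1 := by
    have e1 : (1024 : ℝ) * 1024 * 1024 ≤ (t : ℝ) ^ 3 := by
      have : (1024 : ℝ) ^ 3 ≤ (t : ℝ) ^ 3 := pow_le_pow_left₀ (by norm_num) htr' 3
      linarith
    linarith
  have hpos : (0 : ℝ) < (t : ℝ) ^ 3 / 8192 := by positivity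
  have h4 := step_sysK h3 (by linarith)
  obtain ⟨l, hl⟩ : ∃ l : ℕ, l = 2 * (2 * (2 * (2 * 1 + t + 2) + t + 2) + t + 2) + 2 := ⟨_, rfl⟩
  rw [← hl] at h4
  refine ⟨l, ?_, ?_⟩
  · have e1 : l = 14 * t + 46 := by rw [hl]; ring
    have e2 : (2 : ℕ) ^ (3 * i + 37) = 2 ^ (i + 7) * t := by
      have e0 : (4 : ℕ) ^ (i + 15) = 2 ^ (2 * (i + 15)) := by
        rw [pow_mul]; norm_num
      rw [ht, e0, ← pow_add]
      have : 3 * i + 37 = i + 7 + 2 * (i + 15) := by ring
      rw [this]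
    have e3 : 2 ^ 7 * 2 ^ i = 2 ^ (i + 7) := by rw [← pow_add, Nat.add_comm]
    have e4 : i < 2 ^ i := Nat.lt_two_pow_self
    have e5 : 128 * (i + 1) * t ≤ 2 ^ (i + 7) * t := by
      apply Nat.mul_le_mul_right
      rw [← e3]
      omega
    rw [e1, e2]
    refine le_trans ?_ e5
    have e7 : 128 * (i + 1) * t = 128 * t + 128 * (i * t) := by ring
    have e8 : i * 1 ≤ i * t := Nat.mul_le_mul_left _ (le_trans (by norm_num) ht1)
    rw [e7]
    rw [Nat.mul_one] at e8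
    exact arith1 i t _ (le_trans (by norm_num) ht1) e8
  · obtain ⟨P, Λ, g1, g2, g3, g4⟩ := h4
    refine ⟨P, Λ, g1, g2, g3, le_trans ?_ g4⟩
    refine mul_le_mul_of_nonneg_right ?_ (by positivity)
    have e1 : (4 : ℝ) ^ (3 * i + 37) = (t : ℝ) ^ 3 / 4 ^ 8 := by
      rw [ht]
      push_cast
      rw [← pow_mul, eq_div_iff (by positivity), ← pow_add]
      have : 3 * i + 37 + 8 = (i + 15) * 3 := by ring
      rw [this]
    rw [e1]
    have e2 : (4 : ℝ) ^ 8 = 65536 := by norm_num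
    rw [e2]
    linarith

lemma rpow_sqrt_mono {n N : ℕ} (h : n ≤ N) (hN : 1 ≤ N) :
    (n : ℝ) ^ Real.sqrt n ≤ (N : ℝ) ^ Real.sqrt N := by
  have hN' : (1 : ℝ) ≤ N := by exact_mod_cast hN
  have hn : (n : ℝ) ≤ N := by exact_mod_cast h
  calc (n : ℝ) ^ Real.sqrt n ≤ (N : ℝ) ^ Real.sqrt n :=
        Real.rpow_le_rpow (by positivity) hn (Real.sqrt_nonneg _)
    _ ≤ (N : ℝ) ^ Real.sqrt N :=
        Real.rpow_le_rpow_of_exponent_le hN' (Real.sqrt_le_sqrt hn)

/-- No bound of the form `D + n ^ √n` holds for the number of rich words. -/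
theorem not_bounded (D : ℝ) (hD : ∀ n : ℕ, ((richSet n).ncard : ℝ) ≤ D + (n : ℝ) ^ Real.sqrt n) :
    False := by
  -- choose i with D ≤ 2 ^ i
  obtain ⟨i, hi⟩ : ∃ i : ℕ, D ≤ 2 ^ i := by
    obtain ⟨i, hi⟩ := pow_unbounded_of_one_lt D (one_lt_two : (1 : ℝ) < 2)
    exact ⟨i, hi.le⟩
  obtain ⟨l, hl, P, Λ', hg, hP, hL, hK⟩ := exists_sysK i
  obtain ⟨k, hk⟩ : ∃ k : ℕ, k = 3 * i + 37 := ⟨_, rfl⟩
  rw [← hk] at hl hK
  -- choose exactly K letters
  obtain ⟨K, hKdef⟩ : ∃ K : ℕ, K = 4 ^ k * 2 ^ l := ⟨_, rfl⟩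
  have hK' : K ≤ Λ'.card := by
    have : ((4 ^ k * 2 ^ l : ℕ) : ℝ) ≤ (Λ'.card : ℝ) := by push_cast; exact hK
    rw [hKdef]
    exact_mod_cast this
  obtain ⟨Λ, hsub, hcard⟩ := Finset.exists_subset_card_eq hK'
  have hg' : Good P (Λ : Set (List (Fin 2))) := hg.mono (fun x hx => hsub hx)
  have hmany := many_words hg' hP (fun ψ hψ => hL ψ (hsub hψ))
  rw [hcard] at hmany
  obtain ⟨N, hN⟩ : ∃ N : ℕ, N = 2 ^ l + K * 2 ^ l := ⟨_, rfl⟩
  rw [← hN] at hmany
  obtain ⟨a, ha⟩ : ∃ a : ℕ, a = 2 * k + 2 * l + 1 := ⟨_, rfl⟩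
  have hKpow : K = 2 ^ (2 * k + l) := by
    have e0 : (4 : ℕ) ^ k = 2 ^ (2 * k) := by
      rw [pow_mul]; norm_num
    rw [hKdef, e0, ← pow_add]
  have hNle : N ≤ 2 ^ a := by
    have e1 : 1 ≤ K := by rw [hKpow]; exact Nat.one_le_two_pow
    have e2 : (2 : ℕ) ^ a = 2 * K * 2 ^ l := by
      rw [hKpow, ha, mul_assoc, ← pow_add, ← pow_succ']
      have : 2 * k + 2 * l + 1 = 2 * k + l + l + 1 := by ring
      rw [this]
    have e3 := Nat.mul_le_mul_right (2 ^ l) e1
    rw [e2, hN]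
    have e4 : 2 * K * 2 ^ l = K * 2 ^ l + K * 2 ^ l := by ring
    omega
  have hN1 : 1 ≤ N := by
    have : 1 ≤ 2 ^ l := Nat.one_le_two_pow
    omega
  -- the upper bound
  obtain ⟨b, hb⟩ : ∃ b : ℕ, b = 2 ^ (k + l + 1) := ⟨_, rfl⟩
  have hsqrt : Real.sqrt N ≤ b := by
    rw [Real.sqrt_le_left (by positivity)]
    have e1 : (N : ℝ) ≤ (2 : ℝ) ^ a := by exact_mod_cast hNle
    have e2 : (2 : ℝ) ^ a ≤ ((b : ℕ) : ℝ) ^ 2 := by
      rw [hb]
      push_cast
      rw [← pow_mul]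
      exact pow_le_pow_right₀ (by norm_num) (by omega)
    linarith
  have hNpow : (N : ℝ) ^ Real.sqrt N ≤ (2 : ℝ) ^ (a * b) := by
    have hN1' : (1 : ℝ) ≤ N := by exact_mod_cast hN1
    calc (N : ℝ) ^ Real.sqrt N ≤ (N : ℝ) ^ ((b : ℕ) : ℝ) :=
          Real.rpow_le_rpow_of_exponent_le hN1' hsqrt
      _ = (N : ℝ) ^ b := Real.rpow_natCast _ _
      _ ≤ ((2 : ℝ) ^ a) ^ b := by
          apply pow_le_pow_left₀ (by positivity)
          exact_mod_cast hNle
      _ = (2 : ℝ) ^ (a * b) := by rw [← pow_mul]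
  have hDpow : D ≤ (2 : ℝ) ^ (a * b) := by
    refine hi.trans (pow_le_pow_right₀ (by norm_num) ?_)
    have e1 : 1 ≤ b := by rw [hb]; exact Nat.one_le_two_pow
    have e2 : a * 1 ≤ a * b := Nat.mul_le_mul_left _ e1
    omega
  have hsum : (((∑ n ∈ range (N + 1), (richSet n).ncard : ℕ)) : ℝ) ≤
      (2 : ℝ) ^ (a + 1) * (2 : ℝ) ^ (a * b + 1) := by
    push_cast
    calc ∑ n ∈ range (N + 1), ((richSet n).ncard : ℝ)
        ≤ ∑ _n ∈ range (N + 1), (2 : ℝ) ^ (a * b + 1) := by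
          refine Finset.sum_le_sum (fun n hn => ?_)
          have e1 : n ≤ N := by rw [Finset.mem_range] at hn; omega
          have e2 := hD n
          have e3 := rpow_sqrt_mono e1 hN1
          have e4 : (2 : ℝ) ^ (a * b + 1) = 2 ^ (a * b) + 2 ^ (a * b) := by ring
          linarith
      _ = ((N + 1 : ℕ) : ℝ) * (2 : ℝ) ^ (a * b + 1) := by
          rw [Finset.sum_const, Finset.card_range, nsmul_eq_mul]
      _ ≤ (2 : ℝ) ^ (a + 1) * (2 : ℝ) ^ (a * b + 1) := by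
          apply mul_le_mul_of_nonneg_right _ (by positivity)
          have e1 : N + 1 ≤ 2 ^ (a + 1) := by
            have : 1 ≤ 2 ^ a := Nat.one_le_two_pow
            rw [pow_succ]
            omega
          exact_mod_cast e1
  have hlow : (2 : ℝ) ^ (K - 1) ≤ (((∑ n ∈ range (N + 1), (richSet n).ncard : ℕ)) : ℝ) := by
    have e1 : 2 ^ (K - 1) ≤ 2 ^ K - 1 := by
      have e2 : 1 ≤ K := by rw [hKpow]; exact Nat.one_le_two_pow
      have e3 : 2 ^ K = 2 ^ (K - 1) * 2 := by rw [← pow_succ, Nat.sub_add_cancel e2]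
      have e4 : 1 ≤ 2 ^ (K - 1) := Nat.one_le_two_pow
      omega
    exact_mod_cast e1.trans hmany
  have hcomb : (2 : ℝ) ^ (K - 1) ≤ (2 : ℝ) ^ (a + 1 + (a * b + 1)) := by
    rw [pow_add]
    exact hlow.trans hsum
  have hexp : K - 1 ≤ a + 1 + (a * b + 1) :=
    (pow_le_pow_iff_right₀ (by norm_num : (1 : ℝ) < 2)).mp hcomb
  -- contradiction
  have e1 : K = b * (4 * k + 4 * l + 8) + 2 ^ (k + l) * (2 ^ k - (8 * k + 8 * l + 16)) := by
    obtain ⟨c, hc⟩ := Nat.exists_eq_add_of_le hl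
    rw [hKpow, hb]
    have e2 : (2 : ℕ) ^ (2 * k + l) = 2 ^ (k + l) * 2 ^ k := by
      have : 2 * k + l = k + l + k := by ring
      rw [← pow_add, this]
    have e3 : (2 : ℕ) ^ (k + l + 1) = 2 ^ (k + l) * 2 := by rw [pow_succ]
    rw [e2, e3, hc, Nat.add_sub_cancel_left]
    ring
  have e2 : b * (4 * k + 4 * l + 8) ≤ K := by rw [e1]; omega
  have e3 : 1 ≤ b := by rw [hb]; exact Nat.one_le_two_pow
  have e4 : b * (4 * k + 4 * l + 8) = a * b + b * (2 * k + 2 * l + 7) := by rw [ha]; ring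
  have e5 : 1 * (2 * k + 2 * l + 7) ≤ b * (2 * k + 2 * l + 7) := Nat.mul_le_mul_right _ e3
  omega

/-- The main theorem: there is no function `g` as in the conjecture of Guo, Shallit and Shur. -/
theorem main :
    ¬ (∃ g : ℕ → ℝ, Tendsto g atTop atTop ∧
      Asymptotics.IsTheta atTop
        (fun n : ℕ => ((Set.ncard {w : List (Fin 2) | w.length = n ∧
            Set.ncard {u : List (Fin 2) | u <:+: w ∧ u.reverse = u} = w.length + 1} : ℕ) : ℝ))
        (fun n : ℕ => ((n : ℝ) / g n) ^ Real.sqrt (n : ℝ))) := by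
  rintro ⟨g, hg, hΘ⟩
  obtain ⟨C, hC⟩ := hΘ.1.bound
  have hev : ∀ᶠ n : ℕ in atTop, ((richSet n).ncard : ℝ) ≤ (n : ℝ) ^ Real.sqrt n := by
    filter_upwards [hC, hg.eventually_ge_atTop (max C 1), eventually_ge_atTop 1] with n h1 h2 h3
    have hgC : C ≤ g n := (le_max_left _ _).trans h2
    have hg1 : 1 ≤ g n := (le_max_right _ _).trans h2
    have hn1 : (1 : ℝ) ≤ n := by exact_mod_cast h3
    have hs1 : 1 ≤ Real.sqrt n := by
      rw [Real.one_le_sqrt]; exact hn1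
    have e1 : ((n : ℝ) / g n) ^ Real.sqrt n = (n : ℝ) ^ Real.sqrt n / (g n) ^ Real.sqrt n :=
      Real.div_rpow (by positivity) (by linarith) _
    have e2 : g n ≤ (g n) ^ Real.sqrt n := by
      calc g n = (g n) ^ (1 : ℝ) := (Real.rpow_one _).symm
        _ ≤ _ := Real.rpow_le_rpow_of_exponent_le hg1 hs1
    have e3 : 0 ≤ ((n : ℝ) / g n) ^ Real.sqrt n := Real.rpow_nonneg (by positivity) _
    have h4 : ((richSet n).ncard : ℝ) ≤ C * (((n : ℝ) / g n) ^ Real.sqrt n) := by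
      have := h1
      rw [Real.norm_of_nonneg e3] at this
      refine le_trans ?_ this
      exact le_abs_self _
    refine h4.trans ?_
    rw [e1]
    have e4 : 0 ≤ (n : ℝ) ^ Real.sqrt n := Real.rpow_nonneg (by positivity) _
    have e5 : 0 < (g n) ^ Real.sqrt n := Real.rpow_pos_of_pos (by linarith) _
    rw [← mul_div_assoc, div_le_iff₀ e5]
    nlinarith
  obtain ⟨n₀, hn₀⟩ := eventually_atTop.mp hev
  refine not_bounded (∑ n ∈ range n₀, ((richSet n).ncard : ℝ)) (fun n => ?_)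
  have e4 : 0 ≤ (n : ℝ) ^ Real.sqrt n := Real.rpow_nonneg (by positivity) _
  rcases Nat.lt_or_ge n n₀ with h | h
  · have : ((richSet n).ncard : ℝ) ≤ ∑ n ∈ range n₀, ((richSet n).ncard : ℝ) :=
      Finset.single_le_sum (f := fun n => ((richSet n).ncard : ℝ)) (fun _ _ => by positivity)
        (Finset.mem_range.mpr h)
    linarith
  · have h1 := hn₀ n h
    have h2 : (0 : ℝ) ≤ ∑ n ∈ range n₀, ((richSet n).ncard : ℝ) :=
      Finset.sum_nonneg (fun _ _ => by positivity)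
    linarith

end Pool.Agent.Lib.MP_4d23dd_co
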