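import Pool.Agent.Lib.MP_4d23dd_co.Subst

/-!
# Trees on the letters and the words running down and up a path
-/

namespace Pool.Agent.Lib.MP_4d23dd_co

variable {β : Type*}

/-- A rooted tree on `Λ`, given by the paths from the root. -/
structure PathTree (Λ : Set β) (root : β) (path : β → List β) : Prop where
  root_mem : root ∈ Λ
  mem : ∀ x ∈ Λ, ∀ y ∈ path x, y ∈ Λ
  last : ∀ x ∈ Λ, ∃ D, path x = D ++ [x]
  pre : ∀ x ∈ Λ, ∀ D y R, path x = D ++ y :: R → path y = D ++ [y]
  head : ∀ x ∈ Λ, ∃ R, path x = root :: R

/-- The class `B` is connected in the tree: it has an entry point `e`. -/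
def Conn (Λ : Set β) (path : β → List β) (B : Set β) : Prop :=
  (∃ x ∈ Λ, x ∈ B) → ∃ e ∈ Λ, e ∈ B ∧ (∀ y ∈ (path e).dropLast, y ∉ B) ∧
    ∀ x ∈ Λ, x ∈ B → ∃ R, path x = path e ++ R ∧ ∀ y ∈ R, y ∈ B

/-- down to `x`, `q` times `x`, and up again -/
def wd (path : β → List β) (x : β) (q : ℕ) : List β :=
  (path x).dropLast ++ List.replicate q x ++ (path x).dropLast.reverse

lemma prefix_append_cases {U X Y : List β} {c : β} (h : U ++ [c] <+: X ++ Y) :
    U ++ [c] <+: X ∨ ∃ U', U = X ++ U' ∧ U' ++ [c] <+: Y := by
  rcases List.prefix_or_prefix_of_prefix h (List.prefix_append X Y) with h1 | h1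
  · exact Or.inl h1
  · obtain ⟨T, hT⟩ := h1
    rcases List.eq_nil_or_concat' T with rfl | ⟨T', c', rfl⟩
    · left
      simp at hT
      rw [← hT]
    · right
      rw [← List.append_assoc] at hT
      obtain ⟨h2, h3⟩ := List.append_inj' hT (by simp)
      refine ⟨T', h2.symm, ?_⟩
      rw [← h2, List.append_assoc] at h
      exact (List.prefix_append_right_inj X).mp h

lemma center_unique : ∀ {A A' : List β} {x x' : β} {j j' : ℕ}, 1 ≤ j → 1 ≤ j' → x ∉ A → x' ∉ A' →
    A ++ List.replicate j x ++ A.reverse = A' ++ List.replicate j' x' ++ A'.reverse →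
    A = A' ∧ x = x' ∧ j = j'
  | [], [], x, x', j, j', hj, hj', _, _, h => by
    simp only [List.nil_append, List.reverse_nil, List.append_nil] at h
    have h1 := congrArg List.length h
    simp only [List.length_replicate] at h1
    subst h1
    obtain ⟨m, rfl⟩ : ∃ m, j = m + 1 := ⟨j - 1, by omega⟩
    simp only [List.replicate_succ, List.cons.injEq] at h
    exact ⟨rfl, h.1, rfl⟩
  | [], a' :: A', x, x', j, j', hj, hj', _, hx', h => by
    exfalso
    simp only [List.nil_append, List.reverse_nil, List.append_nil] at h
    have h1 : ∀ y ∈ List.replicate j x, y = x := fun y hy => List.eq_of_mem_replicate hy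
    rw [h] at h1
    have h2 : a' = x := h1 a' (by simp)
    have h3 : x' = x := h1 x' (by
      have : j' ≠ 0 := by omega
      simp [this])
    apply hx'
    rw [h3, ← h2]
    simp
  | a :: A, [], x, x', j, j', hj, hj', hx, _, h => by
    exfalso
    simp only [List.nil_append, List.reverse_nil, List.append_nil] at h
    have h1 : ∀ y ∈ List.replicate j' x', y = x' := fun y hy => List.eq_of_mem_replicate hy
    rw [← h] at h1
    have h2 : a = x' := h1 a (by simp)
    have h3 : x = x' := h1 x (by
      have : j ≠ 0 := by omega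
      simp [this])
    apply hx
    rw [h3, ← h2]
    simp
  | a :: A, a' :: A', x, x', j, j', hj, hj', hx, hx', h => by
    simp only [List.cons_append, List.reverse_cons, List.cons.injEq, ← List.append_assoc] at h
    obtain ⟨rfl, h2⟩ := h
    have h3 := List.append_cancel_right h2
    have hxA : x ∉ A := fun hh => hx (by simp [hh])
    have hxA' : x' ∉ A' := fun hh => hx' (by simp [hh])
    obtain ⟨rfl, rfl, rfl⟩ := center_unique hj hj' hxA hxA' h3
    exact ⟨rfl, rfl, rfl⟩

namespace PathTree

variable {Λ : Set β} {root : β} {path : β → List β}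

lemma dn_append (h : PathTree Λ root path) {x : β} (hx : x ∈ Λ) :
    (path x).dropLast ++ [x] = path x := by
  obtain ⟨D, hD⟩ := h.last x hx
  rw [hD]; simp

lemma notMem_dn (h : PathTree Λ root path) {x : β} (hx : x ∈ Λ) : x ∉ (path x).dropLast := by
  intro hm
  obtain ⟨D₁, D₂, hD⟩ := List.append_of_mem hm
  have h1 := h.dn_append hx
  rw [hD] at h1
  have h2 : path x = D₁ ++ x :: (D₂ ++ [x]) := by rw [← h1]; simp
  have h3 := h.pre x hx _ _ _ h2
  rw [h3] at h2
  have := congrArg List.length h2
  simp at this

lemma mem_dn (h : PathTree Λ root path) {x y : β} (hx : x ∈ Λ) (hy : y ∈ (path x).dropLast) :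
    y ∈ Λ := h.mem x hx y (List.mem_of_mem_dropLast hy)

/-- if `U ++ [c]` is a beginning of the path to `x` then `U` is the path above `c` -/
lemma of_prefix (h : PathTree Λ root path) {x : β} (hx : x ∈ Λ) {U : List β} {c : β}
    (hp : U ++ [c] <+: path x) : c ∈ Λ ∧ U = (path c).dropLast := by
  obtain ⟨R, hR⟩ := hp
  have h1 : path x = U ++ c :: R := by rw [← hR]; simp
  have h2 := h.pre x hx _ _ _ h1
  refine ⟨h.mem x hx c (by rw [h1]; simp), ?_⟩
  rw [h2]; simp

/-- The words running down and up are rich on the level of letters. -/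
theorem lrich (h : PathTree Λ root path) {B : Set β} (hB : Conn Λ path B) :
    LRich {W | ∃ x ∈ Λ, ∃ q, 1 ≤ q ∧ W = wd path x q} B := by
  classical
  by_cases hne : ∃ x ∈ Λ, x ∈ B
  swap
  · -- no letter of `B`
    refine ⟨fun _ => none, fun _ _ => Or.inl rfl, ?_⟩
    rintro U U' ⟨c, hc, W, ⟨x, hx, q, hq, rfl⟩, hp⟩
    exfalso
    apply hne
    refine ⟨c, ?_, hc⟩
    have h1 : c ∈ wd path x q := hp.subset (by simp)
    unfold wd at h1
    simp only [List.mem_append, List.mem_reverse] at h1
    rcases h1 with (h1 | h1) | h1
    · exact h.mem_dn hx h1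
    · rw [List.eq_of_mem_replicate h1]; exact hx
    · exact h.mem_dn hx h1
  obtain ⟨e, he, heB, heD, hconn⟩ := hB hne
  have hends : ∀ R', (∀ y ∈ R', y ∈ B) → ∃ D' c', path e ++ R' = D' ++ [c'] ∧ c' ∈ B := by
    intro R' hR'
    rcases List.eq_nil_or_concat' R' with rfl | ⟨T, c', rfl⟩
    · exact ⟨(path e).dropLast, e, by simp [h.dn_append he], heB⟩
    · exact ⟨path e ++ T, c', by simp, hR' c' (by simp)⟩
  refine LRich_of_rel (fun U κ =>
    (U = (path e).dropLast ∧ κ = none) ∨
    (∃ j, U = (path e).dropLast ++ List.replicate (j + 1) e ∧ κ = some (List.replicate j e)) ∨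
    (∃ x ∈ Λ, ∃ D' c A, (path x).dropLast = D' ++ c :: A ∧ c ∈ B ∧ ∃ j, 1 ≤ j ∧
      U = (path x).dropLast ++ List.replicate j x ++ A.reverse ∧
      κ = some (A ++ List.replicate j x ++ A.reverse))) ?_ ?_
  · rintro U ⟨c, hcB, W, ⟨x, hx, q, hq, rfl⟩, hp⟩
    -- the three types of certificates
    have typeE : ∀ j, U = (path e).dropLast ++ List.replicate (j + 1) e →
        ∃ Q, ((U = (path e).dropLast ∧ some Q = none) ∨
          (∃ j, U = (path e).dropLast ++ List.replicate (j + 1) e ∧
            some Q = some (List.replicate j e)) ∨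
          (∃ x ∈ Λ, ∃ D' c A, (path x).dropLast = D' ++ c :: A ∧ c ∈ B ∧ ∃ j, 1 ≤ j ∧
            U = (path x).dropLast ++ List.replicate j x ++ A.reverse ∧
            some Q = some (A ++ List.replicate j x ++ A.reverse))) ∧ Q.reverse = Q ∧
          ∃ U₀, ∃ c ∈ B, U = U₀ ++ c :: Q := by
      intro j hj
      refine ⟨List.replicate j e, Or.inr (Or.inl ⟨j, hj, rfl⟩), by simp, (path e).dropLast, e,
        heB, ?_⟩
      rw [hj, List.replicate_succ]
    have typeV : ∀ y ∈ Λ, ∀ D' c A, (path y).dropLast = D' ++ c :: A → c ∈ B → ∀ j, 1 ≤ j →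
        U = (path y).dropLast ++ List.replicate j y ++ A.reverse →
        ∃ Q, ((U = (path e).dropLast ∧ some Q = none) ∨
          (∃ j, U = (path e).dropLast ++ List.replicate (j + 1) e ∧
            some Q = some (List.replicate j e)) ∨
          (∃ x ∈ Λ, ∃ D' c A, (path x).dropLast = D' ++ c :: A ∧ c ∈ B ∧ ∃ j, 1 ≤ j ∧
            U = (path x).dropLast ++ List.replicate j x ++ A.reverse ∧
            some Q = some (A ++ List.replicate j x ++ A.reverse))) ∧ Q.reverse = Q ∧
          ∃ U₀, ∃ c ∈ B, U = U₀ ++ c :: Q := by
      intro y hy D' c A hD hc j hj hU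
      refine ⟨A ++ List.replicate j y ++ A.reverse,
        Or.inr (Or.inr ⟨y, hy, D', c, A, hD, hc, j, hj, hU, rfl⟩), by simp, D', c, hc, ?_⟩
      rw [hU, hD]
      simp
    -- a step down to `c`
    have down : ∀ c ∈ Λ, c ∈ B → U = (path c).dropLast →
        (U = (path e).dropLast ∨ (∃ j, U = (path e).dropLast ++ List.replicate (j + 1) e) ∨
          ∃ y ∈ Λ, ∃ D' c A, (path y).dropLast = D' ++ c :: A ∧ c ∈ B ∧ ∃ j, 1 ≤ j ∧
            U = (path y).dropLast ++ List.replicate j y ++ A.reverse) := by
      intro c hc hcB hU
      obtain ⟨R, hR, hRB⟩ := hconn c hc hcB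
      rcases List.eq_nil_or_concat' R with rfl | ⟨R', c', rfl⟩
      · left
        rw [hU, hR]; simp
      · have h1 := h.dn_append hc
        rw [hR, ← List.append_assoc] at h1
        have h2 : (path c).dropLast = path e ++ R' := by
          rw [hR]; simp [← List.append_assoc]
        rcases List.eq_nil_or_concat' R' with rfl | ⟨R'', p, rfl⟩
        · right; left
          refine ⟨0, ?_⟩
          rw [hU, h2]
          simp [h.dn_append he]
        · right; right
          have h3 : path c = (path e ++ R'') ++ p :: [c'] := by rw [hR]; simp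
          have h4 := h.pre c hc _ _ _ h3
          have hp : p ∈ Λ := h.mem c hc p (by rw [h3]; simp)
          have h5 : (path p).dropLast = path e ++ R'' := by
            rw [h4, List.dropLast_concat]
          obtain ⟨D', c'', hDc, hc''⟩ := hends R'' (fun y hy => hRB y (by simp [hy]))
          refine ⟨p, hp, D', c'', [], by rw [h5, hDc], hc'', 1, le_rfl, ?_⟩
          rw [hU, h2, h5]
          simp
    have fin : (U = (path e).dropLast ∨ (∃ j, U = (path e).dropLast ++ List.replicate (j + 1) e) ∨
          ∃ y ∈ Λ, ∃ D' c A, (path y).dropLast = D' ++ c :: A ∧ c ∈ B ∧ ∃ j, 1 ≤ j ∧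
            U = (path y).dropLast ++ List.replicate j y ++ A.reverse) := by
      unfold wd at hp
      rw [List.append_assoc] at hp
      rcases prefix_append_cases hp with h1 | ⟨U', rfl, h1⟩
      · have h2 : U ++ [c] <+: path x := h1.trans (List.dropLast_prefix _)
        obtain ⟨hc, hU⟩ := h.of_prefix hx h2
        exact down c hc hcB hU
      · rcases prefix_append_cases h1 with h2 | ⟨U'', rfl, h2⟩
        · obtain ⟨h3, h4⟩ := List.prefix_replicate_iff.mp h2
          have h5 : c = x := by
            have : c ∈ U' ++ [c] := by simp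
            rw [h4] at this
            exact List.eq_of_mem_replicate this
          have h6 : U' = List.replicate U'.length x := by
            rw [List.eq_replicate_iff]
            refine ⟨rfl, fun y hy => ?_⟩
            have : y ∈ U' ++ [c] := by simp [hy]
            rw [h4] at this
            exact List.eq_of_mem_replicate this
          subst h5
          rcases Nat.eq_zero_or_pos U'.length with h0 | h0
          · have : U' = [] := List.length_eq_zero_iff.mp h0
            subst this
            exact down c hx hcB (by simp)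
          · obtain ⟨R, hR, hRB⟩ := hconn c hx hcB
            rcases List.eq_nil_or_concat' R with rfl | ⟨R', c', rfl⟩
            · right; left
              have hce : c = e := by
                have e1 := h.dn_append hx
                have e2 := h.dn_append he
                have e3 : path c = path e := by simpa using hR
                rw [← e1, ← e2] at e3
                have := (List.append_inj' e3 rfl).2
                simpa using this
              refine ⟨U'.length - 1, ?_⟩
              rw [Nat.sub_add_cancel h0, ← hce, ← h6]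
            · right; right
              have h2 : (path c).dropLast = path e ++ R' := by
                rw [hR]; simp [← List.append_assoc]
              obtain ⟨D', c'', hDc, hc''⟩ := hends R' (fun y hy => hRB y (by simp [hy]))
              refine ⟨c, hx, D', c'', [], by rw [h2, hDc], hc'', U'.length, h0, ?_⟩
              rw [← h6]; simp
        · right; right
          obtain ⟨T, hT⟩ := h2
          have h3 : (path x).dropLast = T.reverse ++ c :: U''.reverse := by
            have := congrArg List.reverse hT
            simp only [List.reverse_append, List.reverse_reverse] at this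
            rw [← this]; simp
          refine ⟨x, hx, T.reverse, c, U''.reverse, h3, hcB, q, hq, ?_⟩
          simp
    rcases fin with h1 | ⟨j, h1⟩ | ⟨y, hy, D', c', A, hD, hc', j, hj, hU⟩
    · left; left; exact ⟨h1, rfl⟩
    · right; exact typeE j h1
    · right; exact typeV y hy D' c' A hD hc' j hj hU
  · rintro U U' κ hU hU'
    rcases hU with ⟨hU, hκ⟩ | ⟨j, hU, hκ⟩ | ⟨x, hx, D, c, A, hD, hc, j, hj, hU, hκ⟩ <;>
      rcases hU' with ⟨hU', hκ'⟩ | ⟨j', hU', hκ'⟩ | ⟨x', hx', D', c', A', hD', hc', j', hj', hU', hκ'⟩
    · rw [hU, hU']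
    · rw [hκ] at hκ'; exact absurd hκ' (by simp)
    · rw [hκ] at hκ'; exact absurd hκ' (by simp)
    · rw [hκ'] at hκ; exact absurd hκ (by simp)
    · rw [hκ] at hκ'
      have : j = j' := by
        have := congrArg List.length (Option.some.inj hκ')
        simpa using this
      rw [hU, hU', this]
    · exfalso
      rw [hκ] at hκ'
      have h1 := Option.some.inj hκ'
      have h2 : x' ∈ List.replicate j e := by
        rw [h1]
        have : j' ≠ 0 := by omega
        simp [this]
      have h3 := List.eq_of_mem_replicate h2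
      subst h3
      exact heD c' (by rw [hD']; simp) hc'
    · rw [hκ'] at hκ; exact absurd hκ (by simp)
    · exfalso
      rw [hκ'] at hκ
      have h1 := Option.some.inj hκ
      have h2 : x ∈ List.replicate j' e := by
        rw [h1]
        have : j ≠ 0 := by omega
        simp [this]
      have h3 := List.eq_of_mem_replicate h2
      subst h3
      exact heD c (by rw [hD]; simp) hc
    · rw [hκ] at hκ'
      have h1 := Option.some.inj hκ'
      have hxA : x ∉ A := fun hh => h.notMem_dn hx (by rw [hD]; simp [hh])
      have hxA' : x' ∉ A' := fun hh => h.notMem_dn hx' (by rw [hD']; simp [hh])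
      obtain ⟨rfl, rfl, rfl⟩ := center_unique hj hj' hxA hxA' h1
      rw [hU, hU']

end PathTree

end Pool.Agent.Lib.MP_4d23dd_co
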