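import Pool.Agent.Lib.MP_4d23dd_co.Count

/-!
# Quantitative form of the step
-/

namespace Pool.Agent.Lib.MP_4d23dd_co

open Finset

/-- a good system with words of length at most `2 ^ l` and with sum of reciprocal lengths `≥ w` -/
def Sys (l : ℕ) (w : ℝ) : Prop :=
  ∃ (P : List (Fin 2)) (Λ : Finset (List (Fin 2))), Good P (Λ : Set (List (Fin 2))) ∧
    P.length ≤ 2 ^ l ∧ (∀ ψ ∈ Λ, ψ.length ≤ 2 ^ l) ∧ w ≤ ∑ ψ ∈ Λ, (1 : ℝ) / ψ.length

/-- a good system with words of length at most `2 ^ l` and with at least `K` words -/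
def SysK (l : ℕ) (K : ℝ) : Prop :=
  ∃ (P : List (Fin 2)) (Λ : Finset (List (Fin 2))), Good P (Λ : Set (List (Fin 2))) ∧
    P.length ≤ 2 ^ l ∧ (∀ ψ ∈ Λ, ψ.length ≤ 2 ^ l) ∧ K ≤ (Λ.card : ℝ)

lemma half_le_div {M l : ℕ} (hl : 1 ≤ l) (h : l ≤ M) : (M : ℝ) / (2 * l) ≤ ((M / l : ℕ) : ℝ) := by
  have h1 : 1 ≤ M / l := (Nat.one_le_div_iff (by omega)).mpr h
  have h2 : M < l * (M / l + 1) := Nat.lt_mul_div_succ M (by omega)
  have h3 : (M : ℝ) ≤ l * ((M / l : ℕ) + 1) := by exact_mod_cast h2.le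
  have h4 : (1 : ℝ) ≤ ((M / l : ℕ) : ℝ) := by exact_mod_cast h1
  have hl' : (0 : ℝ) < l := by exact_mod_cast hl
  rw [div_le_iff₀ (by positivity)]
  nlinarith

/-- The sum over one letter. -/
lemma harm {A l : ℕ} (hl : 1 ≤ l) (hlA : l ≤ A) (t : ℕ) :
    (t : ℝ) / (8 * l) ≤
      ∑ q ∈ (Icc 1 (A * 2 ^ t)).filter (fun q => q * l ≤ A * 2 ^ t),
        (1 : ℝ) / ((A : ℝ) + q * l) := by
  have hA : 1 ≤ A := hl.trans hlA
  have hA' : (0 : ℝ) < A := by exact_mod_cast hA
  have hl' : (0 : ℝ) < l := by exact_mod_cast hl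
  induction t with
  | zero =>
    simp only [Nat.cast_zero, zero_div]
    refine Finset.sum_nonneg (fun q _ => by positivity)
  | succ t ih =>
    set d := A * 2 ^ t / l with hd
    have hMl : l ≤ A * 2 ^ t := hlA.trans (Nat.le_mul_of_pos_right _ (by positivity))
    have hsub : (Icc 1 (A * 2 ^ t)).filter (fun q => q * l ≤ A * 2 ^ t) ∪ Ioc d (2 * d) ⊆
        (Icc 1 (A * 2 ^ (t + 1))).filter (fun q => q * l ≤ A * 2 ^ (t + 1)) := by
      intro q hq
      rcases Finset.mem_union.mp hq with hq | hq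
      · simp only [mem_filter, mem_Icc] at hq ⊢
        have : A * 2 ^ t ≤ A * 2 ^ (t + 1) :=
          Nat.mul_le_mul_left _ (Nat.pow_le_pow_right (by norm_num) (by omega))
        omega
      · simp only [mem_Ioc] at hq
        have h1 : d * l ≤ A * 2 ^ t := Nat.div_mul_le_self _ _
        have h2 : q * l ≤ A * 2 ^ (t + 1) := by
          calc q * l ≤ (2 * d) * l := Nat.mul_le_mul_right _ hq.2
            _ = 2 * (d * l) := by ring
            _ ≤ 2 * (A * 2 ^ t) := Nat.mul_le_mul_left _ h1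
            _ = A * 2 ^ (t + 1) := by ring
        simp only [mem_filter, mem_Icc]
        refine ⟨⟨by omega, ?_⟩, h2⟩
        calc q ≤ q * l := Nat.le_mul_of_pos_right _ (by omega)
          _ ≤ _ := h2
    have hdisj : Disjoint ((Icc 1 (A * 2 ^ t)).filter (fun q => q * l ≤ A * 2 ^ t))
        (Ioc d (2 * d)) := by
      rw [Finset.disjoint_left]
      intro q hq hq'
      simp only [mem_filter, mem_Icc] at hq
      simp only [mem_Ioc] at hq'
      have : q ≤ d := (Nat.le_div_iff_mul_le (by omega)).mpr hq.2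
      omega
    have h1 : ∑ q ∈ (Icc 1 (A * 2 ^ t)).filter (fun q => q * l ≤ A * 2 ^ t),
          (1 : ℝ) / ((A : ℝ) + q * l) + ∑ q ∈ Ioc d (2 * d), (1 : ℝ) / ((A : ℝ) + q * l) ≤
        ∑ q ∈ (Icc 1 (A * 2 ^ (t + 1))).filter (fun q => q * l ≤ A * 2 ^ (t + 1)),
          (1 : ℝ) / ((A : ℝ) + q * l) := by
      rw [← Finset.sum_union hdisj]
      exact Finset.sum_le_sum_of_subset_of_nonneg hsub (fun q _ _ => by positivity)
    have h2 : (1 : ℝ) / (8 * l) ≤ ∑ q ∈ Ioc d (2 * d), (1 : ℝ) / ((A : ℝ) + q * l) := by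
      have h3 : ∀ q ∈ Ioc d (2 * d), (1 : ℝ) / ((A : ℝ) * 2 ^ (t + 2)) ≤
          (1 : ℝ) / ((A : ℝ) + q * l) := by
        intro q hq
        have hq1 := hsub (Finset.mem_union_right _ hq)
        simp only [mem_filter] at hq1
        have hq2 : (q : ℝ) * l ≤ A * 2 ^ (t + 1) := by exact_mod_cast hq1.2
        apply one_div_le_one_div_of_le (by positivity)
        have h4 : (1 : ℝ) ≤ 2 ^ (t + 1) := one_le_pow₀ (by norm_num)
        have h5 : (2 : ℝ) ^ (t + 2) = 2 ^ (t + 1) + 2 ^ (t + 1) := by ring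
        rw [h5]
        nlinarith
      have h4 := Finset.sum_le_sum h3
      refine le_trans ?_ h4
      rw [Finset.sum_const, Nat.card_Ioc, nsmul_eq_mul]
      have h5 : ((2 * d - d : ℕ) : ℝ) = (d : ℝ) := by
        congr 1
        omega
      rw [h5]
      have h6 := half_le_div hl hMl
      rw [← hd] at h6
      have h7 : (1 : ℝ) / (8 * l) = ((A * 2 ^ t : ℕ) : ℝ) / (2 * l) * (1 / ((A : ℝ) * 2 ^ (t + 2))) := by
        push_cast
        field_simp
        ring
      rw [h7]
      exact mul_le_mul_of_nonneg_right h6 (by positivity)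
    have h3 : ((t + 1 : ℕ) : ℝ) / (8 * l) = (t : ℝ) / (8 * l) + 1 / (8 * l) := by
      push_cast
      ring
    rw [h3]
    linarith

theorem step_num {l : ℕ} {w : ℝ} (h : Sys l w) (hw : 1 < w) (t : ℕ) :
    ∃ (P : List (Fin 2)) (Λ : Finset (List (Fin 2))), Good P (Λ : Set (List (Fin 2))) ∧
    P.length ≤ 2 ^ (2 * l + t + 2) ∧ (∀ ψ ∈ Λ, ψ.length ≤ 2 ^ (2 * l + t + 2)) ∧
    (w - 1) * t / 8 ≤ ∑ ψ ∈ Λ, (1 : ℝ) / ψ.length ∧
    (w - 1) / 4 * 2 ^ (2 * l + t + 2) ≤ (Λ.card : ℝ) := by
  classical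
  obtain ⟨P, Λ, hg, hP, hL, hsum⟩ := h
  have hne : Λ.Nonempty := by
    by_contra hne
    rw [Finset.not_nonempty_iff_eq_empty] at hne
    rw [hne] at hsum
    simp at hsum
    linarith
  obtain ⟨root, path, hc, hpl⟩ := exists_short (2 ^ l) (Λ : Set (List (Fin 2)))
    (by exact_mod_cast hne) hL hg.prefixFree
  have hroot : root ∈ Λ := hc.tree.root_mem
  set A : ℕ := 2 ^ (2 * l + 1) with hA
  set M : ℕ := A * 2 ^ t with hM
  have hMp : M = 2 ^ (2 * l + 1 + t) := by rw [hM, hA, ← pow_add]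
  set S : Finset (List (Fin 2) × ℕ) :=
    ((Λ.erase root) ×ˢ Icc 1 M).filter (fun p => p.2 * p.1.length ≤ M) with hS
  have hSp : ∀ p ∈ S, p.1 ∈ (Λ : Set (List (Fin 2))) ∧ p.1 ≠ root ∧ 1 ≤ p.2 := by
    intro p hp
    simp only [hS, mem_filter, mem_product, mem_erase, mem_Icc] at hp
    exact ⟨hp.1.1.2, hp.1.1.1, hp.1.2.1⟩
  have hlen1 : ∀ ψ ∈ Λ, 1 ≤ ψ.length := by
    intro ψ hψ
    exact List.length_pos_iff.mpr (hg.ne ψ hψ)
  have hlenA : ∀ ψ ∈ Λ, ψ.length ≤ A := by
    intro ψ hψ
    refine (hL ψ hψ).trans ?_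
    exact Nat.pow_le_pow_right (by norm_num) (by omega)
  have hnl : ∀ p ∈ S, (nl path p).length ≤ A + p.2 * p.1.length := by
    intro p hp
    obtain ⟨h1, h2, h3⟩ := hSp p hp
    have h4 := nl_length hc ⟨h1, h2, h3⟩ (L := 2 ^ l) (H := 2 ^ l) hL
      ((hpl p.1 h1).trans (Nat.add_le_add_right (hL p.1 h1) 1))
    refine h4.trans (Nat.add_le_add_right (le_of_eq ?_) _)
    rw [hA]; ring
  have hinj : Set.InjOn (nl path) (S : Set (List (Fin 2) × ℕ)) := by
    intro p hp p' hp' he
    exact nl_inj hg hc (hSp p hp) (hSp p' hp') he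
  have hgood : Good (P ++ root) (nl path '' (S : Set (List (Fin 2) × ℕ))) :=
    step_good hg hc _ hSp
  have hsumroot : w - 1 ≤ ∑ x ∈ Λ.erase root, (1 : ℝ) / x.length := by
    have h1 := Finset.add_sum_erase Λ (fun x : List (Fin 2) => (1 : ℝ) / x.length) hroot
    have h2 : (1 : ℝ) / root.length ≤ 1 := by
      have : (1 : ℝ) ≤ root.length := by exact_mod_cast hlen1 root hroot
      rw [div_le_one (by linarith)]
      exact this
    linarith
  refine ⟨P ++ root, S.image (nl path), by rw [Finset.coe_image]; exact hgood, ?_, ?_, ?_, ?_⟩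
  · rw [List.length_append]
    have h1 := hL root hroot
    have h2 : (2 : ℕ) ^ (2 * l + t + 2) = 2 ^ l * 2 ^ (l + t + 2) := by rw [← pow_add]; congr 1; ring
    have h3 : 2 ≤ 2 ^ (l + t + 2) := by
      calc 2 = 2 ^ 1 := by norm_num
        _ ≤ _ := Nat.pow_le_pow_right (by norm_num) (by omega)
    rw [h2]
    nlinarith [Nat.mul_le_mul_left (2 ^ l) h3]
  · intro ψ hψ
    obtain ⟨p, hp, rfl⟩ := Finset.mem_image.mp hψ
    have h1 := hnl p hp
    have h2 : p.2 * p.1.length ≤ M := by
      simp only [hS, mem_filter] at hp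
      exact hp.2
    have h3 : A ≤ M := Nat.le_mul_of_pos_right _ (by positivity)
    have h4 : (2 : ℕ) ^ (2 * l + t + 2) = M + M := by rw [hMp]; ring
    omega
  · rw [Finset.sum_image hinj]
    have h1 : ∑ p ∈ S, (1 : ℝ) / ((A : ℝ) + p.2 * p.1.length) ≤
        ∑ p ∈ S, (1 : ℝ) / ((nl path p).length : ℝ) := by
      refine Finset.sum_le_sum (fun p hp => ?_)
      have h2 : (1 : ℝ) ≤ ((nl path p).length : ℝ) := by
        have : nl path p ≠ [] := hgood.ne _ ⟨p, hp, rfl⟩
        exact_mod_cast List.length_pos_iff.mpr this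
      refine one_div_le_one_div_of_le (by linarith) ?_
      exact_mod_cast hnl p hp
    refine le_trans ?_ h1
    have h2 : ∑ p ∈ S, (1 : ℝ) / ((A : ℝ) + p.2 * p.1.length) =
        ∑ x ∈ Λ.erase root, ∑ q ∈ (Icc 1 M).filter (fun q => q * x.length ≤ M),
          (1 : ℝ) / ((A : ℝ) + q * x.length) := by
      rw [hS, Finset.sum_filter, Finset.sum_product]
      refine Finset.sum_congr rfl (fun x _ => ?_)
      rw [Finset.sum_filter]
    rw [h2]
    have h3 : ∀ x ∈ Λ.erase root, (t : ℝ) / (8 * x.length) ≤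
        ∑ q ∈ (Icc 1 M).filter (fun q => q * x.length ≤ M),
          (1 : ℝ) / ((A : ℝ) + q * x.length) := by
      intro x hx
      have hx' := Finset.mem_of_mem_erase hx
      exact harm (hlen1 x hx') (hlenA x hx') t
    refine le_trans ?_ (Finset.sum_le_sum h3)
    have h4 : ∑ x ∈ Λ.erase root, (t : ℝ) / (8 * x.length) =
        (t : ℝ) / 8 * ∑ x ∈ Λ.erase root, (1 : ℝ) / x.length := by
      rw [Finset.mul_sum]
      refine Finset.sum_congr rfl (fun x _ => ?_)
      rw [div_mul_div_comm, mul_one]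
    rw [h4]
    have h5 : (0 : ℝ) ≤ (t : ℝ) / 8 := by positivity
    nlinarith
  · rw [Finset.card_image_of_injOn hinj]
    have h1 : (S.card : ℝ) = ∑ x ∈ Λ.erase root,
        ((((Icc 1 M).filter (fun q => q * x.length ≤ M)).card : ℕ) : ℝ) := by
      have : S.card = ∑ x ∈ Λ.erase root, ((Icc 1 M).filter (fun q => q * x.length ≤ M)).card := by
        rw [hS, Finset.card_filter, Finset.sum_product]
        refine Finset.sum_congr rfl (fun x _ => ?_)
        rw [Finset.card_filter]
      rw [this]; push_cast; rfl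
    rw [h1]
    have h2 : ∀ x ∈ Λ.erase root, (M : ℝ) / (2 * x.length) ≤
        ((((Icc 1 M).filter (fun q => q * x.length ≤ M)).card : ℕ) : ℝ) := by
      intro x hx
      have hx' := Finset.mem_of_mem_erase hx
      have hxM : x.length ≤ M := (hlenA x hx').trans (Nat.le_mul_of_pos_right _ (by positivity))
      refine (half_le_div (hlen1 x hx') hxM).trans ?_
      have h3 : Icc 1 (M / x.length) ⊆ (Icc 1 M).filter (fun q => q * x.length ≤ M) := by
        intro q hq
        simp only [mem_Icc] at hq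
        simp only [mem_filter, mem_Icc]
        have h4 : q * x.length ≤ M := (Nat.le_div_iff_mul_le (hlen1 x hx')).mp hq.2
        refine ⟨⟨hq.1, ?_⟩, h4⟩
        exact (Nat.le_mul_of_pos_right _ (hlen1 x hx')).trans h4
      have h4 := Finset.card_le_card h3
      rw [Nat.card_Icc, Nat.add_sub_cancel] at h4
      exact_mod_cast h4
    refine le_trans ?_ (Finset.sum_le_sum h2)
    have h4 : ∑ x ∈ Λ.erase root, (M : ℝ) / (2 * x.length) =
        (M : ℝ) / 2 * ∑ x ∈ Λ.erase root, (1 : ℝ) / x.length := by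
      rw [Finset.mul_sum]
      refine Finset.sum_congr rfl (fun x _ => ?_)
      rw [div_mul_div_comm, mul_one]
    rw [h4]
    have h5 : (2 : ℝ) ^ (2 * l + t + 2) = 2 * M := by
      rw [hMp]; push_cast; ring
    rw [h5]
    have h6 : (0 : ℝ) ≤ (M : ℝ) / 2 := by positivity
    nlinarith

theorem step_sys {l : ℕ} {w : ℝ} (h : Sys l w) (hw : 1 < w) (t : ℕ) :
    Sys (2 * l + t + 2) ((w - 1) * t / 8) := by
  obtain ⟨P, Λ, h1, h2, h3, h4, -⟩ := step_num h hw t
  exact ⟨P, Λ, h1, h2, h3, h4⟩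

theorem step_sysK {l : ℕ} {w : ℝ} (h : Sys l w) (hw : 1 < w) :
    SysK (2 * l + 2) ((w - 1) / 4 * 2 ^ (2 * l + 2)) := by
  obtain ⟨P, Λ, h1, h2, h3, -, h4⟩ := step_num h hw 0
  exact ⟨P, Λ, h1, h2, h3, h4⟩

/-- The initial system. -/
lemma sys_base : Sys 1 (3 / 2) := by
  refine ⟨[1], {[1], [0, 1]}, ?_, by simp, ?_, ?_⟩
  · refine ⟨rfl, ?_, ?_, ?_, ?_⟩
    · intro ψ hψ
      simp only [Finset.coe_insert, Finset.coe_singleton, Set.mem_insert_iff,
        Set.mem_singleton_iff] at hψ
      rcases hψ with rfl | rfl <;> rfl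
    · intro ψ hψ
      simp only [Finset.coe_insert, Finset.coe_singleton, Set.mem_insert_iff,
        Set.mem_singleton_iff] at hψ
      rcases hψ with rfl | rfl <;> simp
    · intro ψ hψ s hs hP
      simp only [Finset.coe_insert, Finset.coe_singleton, Set.mem_insert_iff,
        Set.mem_singleton_iff] at hψ
      rw [← List.mem_inits] at hs
      rcases hψ with rfl | rfl
      · simp only [List.inits, List.map_cons, List.map_nil, List.mem_cons, List.not_mem_nil,
          or_false] at hs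
        exact hs
      · simp only [List.inits, List.map_cons, List.map_nil, List.mem_cons, List.not_mem_nil,
          or_false] at hs
        rcases hs with rfl | rfl | rfl
        · exact Or.inl rfl
        · exfalso
          revert hP
          decide
        · exact Or.inr rfl
    · refine ⟨fun u => if u = [1, 0] then [0] else u, ?_, ?_⟩
      · rintro u ⟨hu, w, ⟨ψ, hψ, rfl⟩, hp⟩
        simp only [Finset.coe_insert, Finset.coe_singleton, Set.mem_insert_iff,
          Set.mem_singleton_iff] at hψ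
        rw [← List.mem_inits] at hp
        rcases hψ with rfl | rfl
        · simp only [List.cons_append, List.nil_append, List.inits, List.map_cons, List.map_nil,
            List.mem_cons, List.not_mem_nil, or_false] at hp
          rcases hp with rfl | rfl | rfl
          · exact absurd rfl hu
          · decide
          · decide
        · simp only [List.cons_append, List.nil_append, List.inits, List.map_cons, List.map_nil,
            List.mem_cons, List.not_mem_nil, or_false] at hp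
          rcases hp with rfl | rfl | rfl | rfl
          · exact absurd rfl hu
          · decide
          · decide
          · decide
      · have hno : ∀ u, IsNode {w : List (Fin 2) | ∃ ψ ∈ ((({[1], [0, 1]} :
            Finset (List (Fin 2))) : Set (List (Fin 2)))), w = [1] ++ ψ} u → u ≠ [0] := by
          rintro u ⟨hu, w, ⟨ψ, hψ, rfl⟩, hp⟩ rfl
          exact absurd (List.cons_prefix_cons.mp hp).1 (by decide)
        intro u u' hu hu' he
        by_cases h1 : u = [1, 0] <;> by_cases h2 : u' = [1, 0]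
        · rw [h1, h2]
        · simp only [h1, h2, if_true, if_false] at he
          exact absurd he.symm (hno u' hu')
        · simp only [h1, h2, if_true, if_false] at he
          exact absurd he (hno u hu)
        · simpa only [h1, h2, if_false] using he
  · intro ψ hψ
    simp only [Finset.mem_insert, Finset.mem_singleton] at hψ
    rcases hψ with rfl | rfl <;> simp
  · rw [Finset.sum_pair (by decide)]
    norm_num

end Pool.Agent.Lib.MP_4d23dd_co
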