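import Pool.Agent.Lib.MP_4d23dd_co.Tree

/-!
# The step: from a good system to the good system of the returns to `P ++ root`
-/

namespace Pool.Agent.Lib.MP_4d23dd_co

variable {α : Type*}

/-- The new letter attached to `(x, q)`: the word `wd path x q` without its first letter. -/
def nl (path : List α → List (List α)) (p : List α × ℕ) : List α :=
  (wd path p.1 p.2).tail.flatten

section struct

variable {β : Type*} {Λ : Set β} {root : β} {path : β → List β}

lemma wd_mem (h : PathTree Λ root path) {x : β} (hx : x ∈ Λ) (q : ℕ) :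
    ∀ c ∈ wd path x q, c ∈ Λ := by
  intro c hc
  unfold wd at hc
  simp only [List.mem_append, List.mem_reverse] at hc
  rcases hc with (hc | hc) | hc
  · exact h.mem_dn hx hc
  · rw [List.eq_of_mem_replicate hc]; exact hx
  · exact h.mem_dn hx hc

lemma wd_reverse (path : β → List β) (x : β) (q : ℕ) : (wd path x q).reverse = wd path x q := by
  unfold wd
  simp

/-- the path to `x ≠ root` -/
lemma path_struct (h : PathTree Λ root path) {x : β} (hx : x ∈ Λ) (hne : x ≠ root) :
    ∃ R, (path x).dropLast = root :: R ∧ root ∉ R ∧ ∀ c ∈ R, c ∈ Λ := by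
  obtain ⟨T, hT⟩ := h.head x hx
  rcases List.eq_nil_or_concat' T with rfl | ⟨R, z, rfl⟩
  · exfalso
    obtain ⟨D, hD⟩ := h.last x hx
    rw [hT] at hD
    have h0 : D = [] := by
      have := congrArg List.length hD
      simp at this
      exact this
    rw [h0] at hD
    simp at hD
    exact hne hD.symm
  · have h1 : (path x).dropLast = root :: R := by
      rw [hT]
      rw [← List.cons_append, List.dropLast_concat]
    refine ⟨R, h1, ?_, ?_⟩
    · intro hm
      obtain ⟨A, B, rfl⟩ := List.append_of_mem hm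
      have h2 : path x = (root :: A) ++ root :: (B ++ [z]) := by rw [hT]; simp
      have h3 := h.pre x hx _ _ _ h2
      rw [h.path_root] at h3
      simp at h3
    · intro c hc
      exact h.mem_dn hx (by rw [h1]; simp [hc])

lemma wd_struct (h : PathTree Λ root path) {x : β} (hx : x ∈ Λ) (hne : x ≠ root) {q : ℕ} :
    ∃ V, wd path x q = root :: (V ++ [root]) ∧ root ∉ V ∧ ∀ c ∈ V, c ∈ Λ := by
  obtain ⟨R, h1, h2, h3⟩ := path_struct h hx hne
  refine ⟨R ++ List.replicate q x ++ R.reverse, ?_, ?_, ?_⟩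
  · unfold wd
    rw [h1]
    simp
  · simp only [List.mem_append, List.mem_reverse, not_or]
    exact ⟨⟨h2, fun hh => hne (List.eq_of_mem_replicate hh).symm⟩, h2⟩
  · intro c hc
    simp only [List.mem_append, List.mem_reverse] at hc
    rcases hc with (hc | hc) | hc
    · exact h3 c hc
    · rw [List.eq_of_mem_replicate hc]; exact hx
    · exact h3 c hc

end struct

lemma LRich.mono {β : Type*} {𝓦 𝓦' : Set (List β)} {B : Set β} (h : LRich 𝓦 B) (hs : 𝓦' ⊆ 𝓦) :
    LRich 𝓦' B := by
  obtain ⟨k, h1, h2⟩ := h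
  have hm : ∀ U, LNode 𝓦' B U → LNode 𝓦 B U := by
    rintro U ⟨c, hc, W, hW, hp⟩
    exact ⟨c, hc, W, hs hW, hp⟩
  exact ⟨k, fun U hU => h1 U (hm U hU), fun U U' hU hU' => h2 U U' (hm U hU) (hm U' hU')⟩

variable {P : List α} {Λ : Set (List α)} {root : List α} {path : List α → List (List α)}

lemma nl_inj (h : Good P Λ) (hc : Compat Λ root path) {p p' : List α × ℕ}
    (hp : p.1 ∈ Λ ∧ p.1 ≠ root ∧ 1 ≤ p.2) (hp' : p'.1 ∈ Λ ∧ p'.1 ≠ root ∧ 1 ≤ p'.2)
    (he : nl path p = nl path p') : p = p' := by
  obtain ⟨V, hV, -, hVm⟩ := wd_struct hc.tree hp.1 hp.2.1 (q := p.2)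
  obtain ⟨V', hV', -, hVm'⟩ := wd_struct hc.tree hp'.1 hp'.2.1 (q := p'.2)
  unfold nl at he
  have h1 : (wd path p.1 p.2).tail = (wd path p'.1 p'.2).tail := by
    refine h.flatten_inj ?_ ?_ he
    · intro c hcm
      exact wd_mem hc.tree hp.1 p.2 c (List.mem_of_mem_tail hcm)
    · intro c hcm
      exact wd_mem hc.tree hp'.1 p'.2 c (List.mem_of_mem_tail hcm)
  have h2 : wd path p.1 p.2 = wd path p'.1 p'.2 := by
    rw [hV, hV'] at h1 ⊢
    simp only [List.tail_cons] at h1
    rw [h1]
  unfold wd at h2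
  obtain ⟨-, h3, h4⟩ := center_unique hp.2.2 hp'.2.2 (hc.tree.notMem_dn hp.1)
    (hc.tree.notMem_dn hp'.1) h2
  exact Prod.ext h3 h4

theorem step_good (h : Good P Λ) (hc : Compat Λ root path) (S : Set (List α × ℕ))
    (hS : ∀ p ∈ S, p.1 ∈ Λ ∧ p.1 ≠ root ∧ 1 ≤ p.2) : Good (P ++ root) (nl path '' S) := by
  have hroot : root ∈ Λ := hc.tree.root_mem
  have hnl : ∀ p ∈ S, ∃ V, wd path p.1 p.2 = root :: (V ++ [root]) ∧ root ∉ V ∧
      (∀ c ∈ V, c ∈ Λ) ∧ nl path p = (V ++ [root]).flatten := by
    intro p hp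
    obtain ⟨V, hV, h1, h2⟩ := wd_struct hc.tree (hS p hp).1 (hS p hp).2.1 (q := p.2)
    refine ⟨V, hV, h1, h2, ?_⟩
    unfold nl
    rw [hV]; rfl
  have hfull : ∀ p ∈ S, P ++ root ++ nl path p = P ++ (wd path p.1 p.2).flatten := by
    intro p hp
    obtain ⟨V, hV, -, -, h2⟩ := hnl p hp
    rw [h2, hV]
    simp
  refine ⟨h.pal root hroot, ?_, ?_, ?_, ?_⟩
  · rintro ψ ⟨p, hp, rfl⟩
    rw [hfull p hp]
    exact h.pal_flatten (wd_mem hc.tree (hS p hp).1 _) (wd_reverse _ _ _)
  · rintro ψ ⟨p, hp, rfl⟩ he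
    obtain ⟨V, hV, -, -, h2⟩ := hnl p hp
    rw [h2] at he
    simp only [List.flatten_append, List.flatten_cons, List.flatten_nil, List.append_nil,
      List.append_eq_nil_iff] at he
    exact h.ne root hroot he.2
  · rintro ψ ⟨p, hp, rfl⟩ s hs hP
    obtain ⟨V, hV, hV1, hV2, h2⟩ := hnl p hp
    by_cases hs0 : s = []
    · exact Or.inl hs0
    right
    rw [h2] at hs
    obtain ⟨U, c, t, hU, ht, ht0, rfl⟩ := exists_decomp hs0 hs
    have hVr : ∀ d ∈ V ++ [root], d ∈ Λ := by
      intro d hd
      rcases List.mem_append.mp hd with hd | hd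
      · exact hV2 d hd
      · rw [List.mem_singleton.mp hd]; exact hroot
    have hcΛ : c ∈ Λ := hVr c (hU.subset (by simp))
    have hUΛ : ∀ d ∈ U, d ∈ Λ := fun d hd => hVr d (hU.subset (by simp [hd]))
    -- the word read so far
    have hrU : ∀ d ∈ root :: U, d ∈ Λ := by
      intro d hd
      rcases List.mem_cons.mp hd with rfl | hd
      · exact hroot
      · exact hUΛ d hd
    have hword : P ++ root ++ (U.flatten ++ t) =
        ((root :: U).map List.reverse).flatten ++ (P ++ t) := by
      have := h.swap_flatten hrU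
      calc P ++ root ++ (U.flatten ++ t) = (P ++ (root :: U).flatten) ++ t := by simp
        _ = _ := by rw [this]; simp
    by_cases htc : t = c
    · subst htc
      -- the last letter must be the root
      have h3 : root.reverse ++ P <:+ ((root :: U).map List.reverse).flatten ++
          (t.reverse ++ P) := by
        rw [← h.swap hroot, ← h.swap hcΛ, ← hword]; exact hP
      have h4 : root.reverse <:+ ((root :: U).map List.reverse).flatten ++ t.reverse := by
        obtain ⟨X, hX⟩ := h3
        rw [← List.append_assoc, ← List.append_assoc] at hX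
        exact ⟨X, List.append_cancel_right hX⟩
      have h5 : t = root := by
        rcases List.suffix_or_suffix_of_suffix h4 (List.suffix_append _ _) with h5 | h5
        · exact (h.code hroot hcΛ (List.reverse_suffix.mp h5)).symm
        · exact h.code hcΛ hroot (List.reverse_suffix.mp h5)
      subst h5
      rcases List.prefix_concat_iff.mp hU with h6 | h6
      · rw [h2, ← h6]
        simp
      · exact absurd (h6.subset (by simp)) hV1
    · exfalso
      have h3 : P <:+ P ++ root ++ (U.flatten ++ t) := by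
        have h4 : P <:+ P ++ root := by rw [h.swap hroot]; exact List.suffix_append _ _
        exact h4.trans hP
      rw [hword] at h3
      have h4 : P <:+ P ++ t :=
        List.suffix_of_suffix_length_le h3 (List.suffix_append _ _) (by simp)
      rcases h.ret c hcΛ t ht h4 with h5 | h5
      · exact ht0 h5
      · exact htc h5
  · have h1 := h.subst ⟨root, hroot⟩ {W | ∃ x ∈ Λ, ∃ q, 1 ≤ q ∧ W = wd path x q} ?_ ?_
    · refine h1.mono ?_
      rintro u ⟨hu, w, ⟨ψ, ⟨p, hp, rfl⟩, rfl⟩, hpre⟩
      refine ⟨hu, _, ⟨wd path p.1 p.2, ⟨p.1, (hS p hp).1, p.2, (hS p hp).2.2, rfl⟩, rfl⟩, ?_⟩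
      rw [← hfull p hp]; exact hpre
    · rintro W ⟨x, hx, q, hq, rfl⟩
      exact wd_mem hc.tree hx q
    · intro s _
      exact hc.tree.lrich (hc.conn s)

/-- length of a new letter -/
lemma nl_length (hc : Compat Λ root path) {p : List α × ℕ}
    (hp : p.1 ∈ Λ ∧ p.1 ≠ root ∧ 1 ≤ p.2) {L H : ℕ} (hL : ∀ ψ ∈ Λ, ψ.length ≤ L)
    (hH : (path p.1).length ≤ H + 1) :
    (nl path p).length ≤ 2 * H * L + p.2 * p.1.length := by
  obtain ⟨R, h1, h2, h3⟩ := path_struct hc.tree hp.1 hp.2.1
  have hD : (path p.1).dropLast.length ≤ H := by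
    rw [List.length_dropLast]; omega
  have hflat : ∀ T : List (List α), (∀ c ∈ T, c ∈ Λ) → T.flatten.length ≤ T.length * L := by
    intro T hT
    induction T with
    | nil => simp
    | cons c T ih =>
      have e1 := ih (fun d hd => hT d (by simp [hd]))
      have e2 := hL c (hT c (by simp))
      simp only [List.flatten_cons, List.length_append, List.length_cons]
      nlinarith
  have e0 : (nl path p).length ≤ (wd path p.1 p.2).flatten.length := by
    unfold nl
    rcases hw : wd path p.1 p.2 with _ | ⟨c, T⟩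
    · simp
    · simp
  have e1 : (wd path p.1 p.2).flatten.length =
      2 * (path p.1).dropLast.flatten.length + p.2 * p.1.length := by
    unfold wd
    simp only [List.flatten_append, List.length_append, List.length_flatten, List.map_reverse,
      List.sum_reverse, List.map_replicate, List.sum_replicate, smul_eq_mul]
    ring
  have e2 := hflat (path p.1).dropLast (fun c hcm => hc.tree.mem_dn hp.1 hcm)
  have e3 : (path p.1).dropLast.length * L ≤ H * L := Nat.mul_le_mul_right _ hD
  rw [e1] at e0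
  nlinarith

end Pool.Agent.Lib.MP_4d23dd_co
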