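import Pool.Agent.Lib.MP_4d23dd_co.Basic

/-!
# The substitution lemma

If a set `𝓦` of words over the letters `Λ` of a good system is rich on the level of letters
(`LRich`, for every class of letters with a common beginning), then the words `P ++ W.flatten`,
`W ∈ 𝓦`, form a rich tree.
-/

namespace Pool.Agent.Lib.MP_4d23dd_co

variable {α β : Type*}

/-- `U` can be continued in `𝓦` by a letter of `B`. -/
def LNode (𝓦 : Set (List β)) (B : Set β) (U : List β) : Prop := ∃ c ∈ B, ∃ W ∈ 𝓦, U ++ [c] <+: W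

/-- Richness on the level of letters, relative to the class `B` of letters: an injective assignment
to every `U` that can be continued by a letter of `B` of either `none` or a palindrome `Q` which
ends `U` and is preceded in `U` by a letter of `B`. -/
def LRich (𝓦 : Set (List β)) (B : Set β) : Prop :=
  ∃ k : List β → Option (List β),
    (∀ U, LNode 𝓦 B U → k U = none ∨
      ∃ Q, k U = some Q ∧ Q.reverse = Q ∧ ∃ U₀, ∃ c ∈ B, U = U₀ ++ c :: Q) ∧
    (∀ U U', LNode 𝓦 B U → LNode 𝓦 B U' → k U = k U' → U = U')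

lemma LRich_of_rel {𝓦 : Set (List β)} {B : Set β} (R : List β → Option (List β) → Prop)
    (h1 : ∀ U, LNode 𝓦 B U → R U none ∨
      ∃ Q, R U (some Q) ∧ Q.reverse = Q ∧ ∃ U₀, ∃ c ∈ B, U = U₀ ++ c :: Q)
    (h2 : ∀ U U' κ, R U κ → R U' κ → U = U') : LRich 𝓦 B := by
  classical
  have h3 : ∀ U, LNode 𝓦 B U → ∃ κ, R U κ ∧ (κ = none ∨
      ∃ Q, κ = some Q ∧ Q.reverse = Q ∧ ∃ U₀, ∃ c ∈ B, U = U₀ ++ c :: Q) := by
    intro U hU
    rcases h1 U hU with h | ⟨Q, h, h'⟩
    · exact ⟨none, h, Or.inl rfl⟩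
    · exact ⟨some Q, h, Or.inr ⟨Q, rfl, h'⟩⟩
  refine ⟨fun U => if h : LNode 𝓦 B U then (h3 U h).choose else none, ?_, ?_⟩
  · intro U hU
    simp only [hU, dif_pos]
    exact (h3 U hU).choose_spec.2
  · intro U U' hU hU' h
    simp only [hU, hU', dif_pos] at h
    have e1 := (h3 U hU).choose_spec.1
    have e2 := (h3 U' hU').choose_spec.1
    rw [h] at e1
    exact h2 _ _ _ e1 e2

/-- Decomposition of a nonempty beginning of `W.flatten`. -/
lemma exists_decomp : ∀ {W : List (List α)} {v : List α}, v ≠ [] → v <+: W.flatten →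
    ∃ U c s, U ++ [c] <+: W ∧ s <+: c ∧ s ≠ [] ∧ v = U.flatten ++ s
  | [], v, hv, hp => by
    simp at hp
    exact absurd hp hv
  | c :: W, v, hv, hp => by
    rw [List.flatten_cons] at hp
    by_cases h1 : v <+: c
    · exact ⟨[], c, v, by simp, h1, hv, by simp⟩
    · have h2 : c <+: v := by
        rcases List.prefix_or_prefix_of_prefix hp (List.prefix_append c W.flatten) with h | h
        · exact absurd h h1
        · exact h
      obtain ⟨v', rfl⟩ := h2
      have h3 : v' <+: W.flatten := (List.prefix_append_right_inj c).mp hp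
      have h4 : v' ≠ [] := by
        rintro rfl
        simp at h1
      obtain ⟨U, c', s, hU, hs, hs0, hv'⟩ := exists_decomp h4 h3
      refine ⟨c :: U, c', s, ?_, hs, hs0, ?_⟩
      · simpa using (List.prefix_cons_inj c).mpr hU
      · simp [hv']

namespace Good

variable {P : List α} {Λ : Set (List α)}

lemma no_P (h : Good P Λ) {s κ A B : List α} (hs : Proper Λ s) (hs0 : s ≠ [])
    (hκ : κ.reverse = κ) (hsuf : κ <:+ P ++ s) (he : κ = A ++ P ++ B) : False := by
  obtain ⟨X, hX⟩ := hsuf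
  have h1 : P ++ s = (X ++ A) ++ P ++ B := by
    rw [← hX, he]; simp
  have h2 := (h.occ_proper hs h1).1
  have h3 : X = [] := (List.append_eq_nil_iff.mp h2).1
  subst h3
  simp only [List.nil_append] at hX
  rw [hX] at hκ
  have h4 : P ++ s = s.reverse ++ P ++ [] := by
    rw [List.reverse_append, h.palP] at hκ
    simpa using hκ.symm
  have h5 := (h.occ_proper hs h4).1
  exact hs0 (by simpa using h5)

lemma suffix_of_letters (h : Good P Λ) {U : List (List α)} (hU : ∀ c ∈ U, c ∈ Λ) (s : List α) :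
    P ++ s <:+ P ++ U.flatten ++ s := by
  rw [h.swap_flatten hU, List.append_assoc]
  exact List.suffix_append _ _

/-- canonical form of `kap` with proper tail -/
lemma kap_canon (h : Good P Λ) {Q : List (List α)} {s : List α} (hQ : ∀ c ∈ Q, c ∈ Λ)
    (hs : Proper Λ s ∨ s ∈ Λ) : ∃ Q' s', (∀ c ∈ Q', c ∈ Λ) ∧ Proper Λ s' ∧
      kap P Q s = kap P Q' s' ∧
      ((Proper Λ s ∧ Q' = Q ∧ s' = s) ∨ (s ∈ Λ ∧ Q' = s :: Q ++ [s] ∧ s' = [])) := by
  rcases hs with hs | hs
  · exact ⟨Q, s, hQ, hs, rfl, Or.inl ⟨hs, rfl, rfl⟩⟩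
  · refine ⟨s :: Q ++ [s], [], ?_, h.proper_nil_of_mem hs, h.kap_full hs, Or.inr ⟨hs, rfl, rfl⟩⟩
    intro c hc
    simp at hc
    rcases hc with rfl | hc | rfl
    · exact hs
    · exact hQ c hc
    · exact hs

lemma kap_inj' (h : Good P Λ) {Q Q' : List (List α)} {s s' : List α}
    (hQ : ∀ c ∈ Q, c ∈ Λ) (hQ' : ∀ c ∈ Q', c ∈ Λ) (hs0 : s ≠ []) (hs0' : s' ≠ [])
    (hs : Proper Λ s ∨ s ∈ Λ) (hs' : Proper Λ s' ∨ s' ∈ Λ) (hk : kap P Q s = kap P Q' s') :
    Q = Q' ∧ s = s' := by
  obtain ⟨R, t, hR, ht, hkR, hR'⟩ := h.kap_canon hQ hs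
  obtain ⟨R', t', hRR, ht', hkR', hR''⟩ := h.kap_canon hQ' hs'
  rw [hkR, hkR'] at hk
  obtain ⟨e1, e2⟩ := h.kap_inj hR hRR ht ht' hk
  rcases hR' with ⟨-, rfl, rfl⟩ | ⟨-, rfl, rfl⟩ <;> rcases hR'' with ⟨-, rfl, rfl⟩ | ⟨-, rfl, rfl⟩
  · exact ⟨e1, e2⟩
  · exact absurd e2 hs0
  · exact absurd e2.symm hs0'
  · simp only [List.cons_append, List.cons.injEq] at e1
    obtain ⟨rfl, e3⟩ := e1
    exact ⟨List.append_cancel_right e3, rfl⟩

theorem subst (h : Good P Λ) (hΛ : Λ.Nonempty) (𝓦 : Set (List (List α)))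
    (hW : ∀ W ∈ 𝓦, ∀ c ∈ W, c ∈ Λ)
    (hr : ∀ s : List α, s ≠ [] → LRich 𝓦 {c | c ∈ Λ ∧ s <+: c}) :
    RT {w | ∃ W ∈ 𝓦, w = P ++ W.flatten} := by
  obtain ⟨δ, hδ1, hδ2⟩ := h.rt
  choose k hk1 hk2 using hr
  set B : List α → Set (List α) := fun s => {c | c ∈ Λ ∧ s <+: c} with hB
  have hnodeP : ∀ u, u ≠ [] → u <+: P → IsNode {w | ∃ ψ ∈ Λ, w = P ++ ψ} u := by
    intro u hu hp
    obtain ⟨ψ, hψ⟩ := hΛ
    exact ⟨hu, P ++ ψ, ⟨ψ, hψ, rfl⟩, hp.trans (List.prefix_append _ _)⟩
  have hnodeS : ∀ s, s ≠ [] → (Proper Λ s ∨ s ∈ Λ) → IsNode {w | ∃ ψ ∈ Λ, w = P ++ ψ} (P ++ s) := by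
    intro s hs0 hs
    refine ⟨by simp [hs0], ?_⟩
    rcases hs with ⟨ψ, hψ, hp, -⟩ | hs
    · exact ⟨P ++ ψ, ⟨ψ, hψ, rfl⟩, (List.prefix_append_right_inj P).mpr hp⟩
    · exact ⟨P ++ s, ⟨s, hs, rfl⟩, List.prefix_rfl⟩
  have hmem : ∀ s U, LNode 𝓦 (B s) U → ∀ c ∈ U, c ∈ Λ := by
    rintro s U ⟨c, -, W, hWm, hp⟩ d hd
    exact hW W hWm d (hp.subset (by simp [hd]))
  have hsB : ∀ s U, LNode 𝓦 (B s) U → Proper Λ s ∨ s ∈ Λ := by
    rintro s U ⟨c, hc, -⟩
    by_cases he : s = c
    · right; rw [he]; exact hc.1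
    · left; exact ⟨c, hc.1, hc.2, he⟩
  refine RT_of_rel (fun u κ =>
    (u ≠ [] ∧ u <+: P ∧ κ = δ u) ∨
    (∃ U s, ∃ hs : s ≠ [], LNode 𝓦 (B s) U ∧ u = P ++ U.flatten ++ s ∧
      ((k s hs U = none ∧ Proper Λ s ∧ κ = δ (P ++ s)) ∨
       (k s hs U = none ∧ s ∈ Λ ∧ κ = P ++ s) ∨
       (∃ Q, k s hs U = some Q ∧ (∀ c ∈ Q, c ∈ Λ) ∧ κ = kap P Q s)))) ?_ ?_
  · rintro u ⟨hu0, w, ⟨W, hWm, rfl⟩, hp⟩
    by_cases hup : u <+: P
    · obtain ⟨e1, e2, e3⟩ := hδ1 u (hnodeP u hu0 hup)
      exact ⟨δ u, Or.inl ⟨hu0, hup, rfl⟩, e1, e2, e3⟩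
    · have h2 : P <+: u := by
        rcases List.prefix_or_prefix_of_prefix hp (List.prefix_append P W.flatten) with h | h
        · exact absurd h hup
        · exact h
      obtain ⟨v, rfl⟩ := h2
      have h3 : v <+: W.flatten := (List.prefix_append_right_inj P).mp hp
      have h4 : v ≠ [] := by
        rintro rfl
        simp at hup
      obtain ⟨U, c, s, hU, hs, hs0, rfl⟩ := exists_decomp h4 h3
      have hcΛ : c ∈ Λ := hW W hWm c (hU.subset (by simp))
      have hN : LNode 𝓦 (B s) U := ⟨c, ⟨hcΛ, hs⟩, W, hWm, hU⟩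
      have hUΛ := hmem s U hN
      rcases hk1 s hs0 U hN with hk | ⟨Q, hk, hQr, U₀, c', hc', hUe⟩
      · rcases hsB s U hN with hsp | hsf
        · obtain ⟨e1, e2, e3⟩ := hδ1 (P ++ s) (hnodeS s hs0 (Or.inl hsp))
          refine ⟨δ (P ++ s), Or.inr ⟨U, s, hs0, hN, by simp, Or.inl ⟨hk, hsp, rfl⟩⟩, e1, e2, ?_⟩
          have := h.suffix_of_letters hUΛ s
          rw [List.append_assoc] at this
          exact e3.trans this
        · refine ⟨P ++ s, Or.inr ⟨U, s, hs0, hN, by simp, Or.inr (Or.inl ⟨hk, hsf, rfl⟩)⟩,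
            h.pal s hsf, by simp [hs0], ?_⟩
          have := h.suffix_of_letters hUΛ s
          rwa [List.append_assoc] at this
      · have hQΛ : ∀ c ∈ Q, c ∈ Λ := fun d hd => hUΛ d (by rw [hUe]; simp [hd])
        refine ⟨kap P Q s, Or.inr ⟨U, s, hs0, hN, by simp, Or.inr (Or.inr ⟨Q, hk, hQΛ, rfl⟩)⟩,
          h.kap_pal hQΛ hQr s, by simp [kap, hs0], ?_⟩
        have hU₀ : ∀ c ∈ U₀, c ∈ Λ := fun d hd => hUΛ d (by rw [hUe]; simp [hd])
        obtain ⟨t, ht⟩ := hc'.2
        have e1 : P ++ (U.flatten ++ s) =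
            (U₀.map List.reverse).flatten ++ t.reverse ++ kap P Q s := by
          have e2 := h.swap_flatten hU₀
          have e3 := h.swap hc'.1
          have e4 : c'.reverse = t.reverse ++ s.reverse := by rw [← ht]; simp
          rw [hUe, List.flatten_append, List.flatten_cons]
          unfold kap
          calc P ++ (U₀.flatten ++ (c' ++ Q.flatten) ++ s)
              = (P ++ U₀.flatten) ++ c' ++ Q.flatten ++ s := by simp
            _ = (U₀.map List.reverse).flatten ++ (P ++ c') ++ Q.flatten ++ s := by rw [e2]; simp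
            _ = _ := by rw [e3, e4]; simp
        rw [e1]
        exact List.suffix_append _ _
  · intro u u' κ hu hu'
    -- every alternative of the second kind with `P` inside
    rcases hu with ⟨hu0, hup, rfl⟩ | ⟨U, s, hs0, hN, rfl, hu⟩
    · rcases hu' with ⟨hu0', hup', he⟩ | ⟨U', s', hs0', hN', rfl, hu'⟩
      · exact hδ2 _ _ (hnodeP u hu0 hup) (hnodeP u' hu0' hup') he
      · have hlen : (δ u).length ≤ P.length :=
          ((hδ1 u (hnodeP u hu0 hup)).2.2.length_le).trans hup.length_le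
        rcases hu' with ⟨-, hsp, he⟩ | ⟨-, hsf, he⟩ | ⟨Q, -, -, he⟩
        · have := hδ2 _ _ (hnodeP u hu0 hup) (hnodeS s' hs0' (Or.inl hsp)) he
          subst this
          exfalso
          have h1 := hup.length_le
          simp at h1
          exact hs0' h1
        · exfalso
          rw [he] at hlen
          simp at hlen
          exact hs0' hlen
        · exfalso
          rw [he] at hlen
          simp only [kap, List.length_append, List.length_reverse] at hlen
          have : s'.length ≠ 0 := by simpa using hs0'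
          omega
    · rcases hu' with ⟨hu0', hup', he⟩ | ⟨U', s', hs0', hN', rfl, hu'⟩
      · have hlen : (δ u').length ≤ P.length :=
          ((hδ1 u' (hnodeP u' hu0' hup')).2.2.length_le).trans hup'.length_le
        rcases hu with ⟨-, hsp, he'⟩ | ⟨-, hsf, he'⟩ | ⟨Q, -, -, he'⟩
        · have := hδ2 _ _ (hnodeP u' hu0' hup') (hnodeS s hs0 (Or.inl hsp)) (he.symm.trans he')
          subst this
          exfalso
          have h1 := hup'.length_le
          simp at h1
          exact hs0 h1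
        · exfalso
          rw [← he, he'] at hlen
          simp at hlen
          exact hs0 hlen
        · exfalso
          rw [← he, he'] at hlen
          simp only [kap, List.length_append, List.length_reverse] at hlen
          have : s.length ≠ 0 := by simpa using hs0
          omega
      · -- both of the second kind
        have key : s = s' ∧ ∀ (_ : s = s'), U = U' := by
          rcases hu with ⟨hkU, hsp, he⟩ | ⟨hkU, hsf, he⟩ | ⟨Q, hkU, hQ, he⟩ <;>
            rcases hu' with ⟨hkU', hsp', he'⟩ | ⟨hkU', hsf', he'⟩ | ⟨Q', hkU', hQ', he'⟩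
          · have := hδ2 _ _ (hnodeS s hs0 (Or.inl hsp)) (hnodeS s' hs0' (Or.inl hsp'))
              (he.symm.trans he')
            have hss : s = s' := List.append_cancel_left this
            subst hss
            exact ⟨rfl, fun _ => hk2 s hs0 U U' hN hN' (hkU.trans hkU'.symm)⟩
          · exfalso
            obtain ⟨e1, e2, e3⟩ := hδ1 (P ++ s) (hnodeS s hs0 (Or.inl hsp))
            rw [← he] at e1 e3
            exact h.no_P (A := []) (B := s') hsp hs0 e1 e3 (by simp [he'])
          · exfalso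
            obtain ⟨e1, e2, e3⟩ := hδ1 (P ++ s) (hnodeS s hs0 (Or.inl hsp))
            rw [← he] at e1 e3
            exact h.no_P (A := s'.reverse) (B := Q'.flatten ++ s') hsp hs0 e1 e3
              (by rw [he']; simp [kap])
          · exfalso
            obtain ⟨e1, e2, e3⟩ := hδ1 (P ++ s') (hnodeS s' hs0' (Or.inl hsp'))
            rw [← he'] at e1 e3
            exact h.no_P (A := []) (B := s) hsp' hs0' e1 e3 (by simp [he])
          · have hss : s = s' := List.append_cancel_left (he.symm.trans he')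
            subst hss
            exact ⟨rfl, fun _ => hk2 s hs0 U U' hN hN' (hkU.trans hkU'.symm)⟩
          · exfalso
            have e0 : kap P [s] [] = kap P Q' s' := by
              rw [← he', he]; simp [kap]
            obtain ⟨R, t, hR, ht, hkR, hR'⟩ := h.kap_canon hQ' (hsB s' U' hN')
            rw [hkR] at e0
            obtain ⟨e1, e2⟩ := h.kap_inj (by simpa using hsf) hR (h.proper_nil_of_mem hsf) ht e0
            rcases hR' with ⟨-, rfl, rfl⟩ | ⟨-, rfl, rfl⟩
            · exact hs0' e2.symm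
            · have := congrArg List.length e1
              simp at this
          · exfalso
            obtain ⟨e1, e2, e3⟩ := hδ1 (P ++ s') (hnodeS s' hs0' (Or.inl hsp'))
            rw [← he'] at e1 e3
            exact h.no_P (A := s.reverse) (B := Q.flatten ++ s) hsp' hs0' e1 e3
              (by rw [he]; simp [kap])
          · exfalso
            have e0 : kap P [s'] [] = kap P Q s := by
              rw [← he, he']; simp [kap]
            obtain ⟨R, t, hR, ht, hkR, hR'⟩ := h.kap_canon hQ (hsB s U hN)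
            rw [hkR] at e0
            obtain ⟨e1, e2⟩ := h.kap_inj (by simpa using hsf') hR (h.proper_nil_of_mem hsf') ht e0
            rcases hR' with ⟨-, rfl, rfl⟩ | ⟨-, rfl, rfl⟩
            · exact hs0 e2.symm
            · have := congrArg List.length e1
              simp at this
          · obtain ⟨e1, e2⟩ := h.kap_inj' hQ hQ' hs0 hs0' (hsB s U hN) (hsB s' U' hN')
              (he.symm.trans he')
            subst e1
            subst e2
            exact ⟨rfl, fun _ => hk2 s hs0 U U' hN hN' (hkU.trans hkU'.symm)⟩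
        obtain ⟨rfl, h2⟩ := key
        rw [h2 rfl]

end Good

end Pool.Agent.Lib.MP_4d23dd_co
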