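import Pool.Agent.Lib.MP_4d23dd_co.Letter

/-!
# Existence of compatible trees on binary codes without proper beginnings

For a set `Λ` of binary words, none of which begins another one, we construct rooted trees on `Λ`
in which all the classes `{c ∈ Λ | s <+: c}` are connected: one with short paths and, in the other
extreme, one which is a single path.
-/

namespace Pool.Agent.Lib.MP_4d23dd_co

/-- the class of the words of `Λ` beginning with `s` -/
def cls {α : Type*} (Λ : Set (List α)) (s : List α) : Set (List α) := {c | c ∈ Λ ∧ s <+: c}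

/-- no element of `Λ` is a beginning of another one -/
def PrefixFree {α : Type*} (Λ : Set (List α)) : Prop := ∀ ψ ∈ Λ, ∀ ψ' ∈ Λ, ψ <+: ψ' → ψ = ψ'

/-- A tree on `Λ` in which all classes `cls Λ s` are connected. -/
structure Compat {α : Type*} (Λ : Set (List α)) (root : List α) (path : List α → List (List α)) :
    Prop where
  tree : PathTree Λ root path
  conn : ∀ s, Conn Λ path (cls Λ s)

lemma PathTree.path_root {β : Type*} {Λ : Set β} {root : β} {path : β → List β}
    (h : PathTree Λ root path) : path root = [root] := by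
  obtain ⟨R, hR⟩ := h.head root h.root_mem
  exact h.pre root h.root_mem [] root R hR

lemma conn_nil {α : Type*} {Λ : Set (List α)} {root : List α} {path : List α → List (List α)}
    (h : PathTree Λ root path) : Conn Λ path (cls Λ []) := by
  intro _
  refine ⟨root, h.root_mem, ⟨h.root_mem, List.nil_prefix⟩, ?_, ?_⟩
  · rw [h.path_root]; simp
  · intro x hx _
    obtain ⟨R, hR⟩ := h.head x hx
    refine ⟨R, by rw [hR, h.path_root]; simp, ?_⟩
    intro y hy
    exact ⟨h.mem x hx y (by rw [hR]; simp [hy]), List.nil_prefix⟩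

section singleton

variable {α : Type*}

lemma compat_singleton : Compat ({[]} : Set (List α)) [] (fun _ => [[]]) := by
  have ht : PathTree ({[]} : Set (List α)) [] (fun _ => [[]]) := by
    refine ⟨rfl, ?_, ?_, ?_, ?_⟩
    · intro x _ y hy
      simpa using hy
    · intro x hx
      exact ⟨[], by rw [Set.mem_singleton_iff.mp hx]; simp⟩
    · intro x _ D y R h
      have hl := congrArg List.length h
      simp at hl
      have hD : D = [] := List.length_eq_zero_iff.mp (by omega)
      subst hD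
      simp at h
      simp [h.1]
    · intro x _
      exact ⟨[], by simp⟩
  refine ⟨ht, ?_⟩
  intro s
  rcases s with _ | ⟨a, s⟩
  · exact conn_nil ht
  · rintro ⟨x, hx, hxB⟩
    exfalso
    have := hxB.2
    rw [Set.mem_singleton_iff.mp hx] at this
    simp at this

end singleton

section lift

variable {α : Type*}

/-- put the letter `a` in front of everything -/
def liftPath (a : α) (p : List α → List (List α)) : List α → List (List α) :=
  fun w => (p w.tail).map (fun v => a :: v)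

lemma compat_lift (a : α) {Λ : Set (List α)} {root : List α} {p : List α → List (List α)}
    (h : Compat Λ root p) :
    Compat {w | ∃ v ∈ Λ, w = a :: v} (a :: root) (liftPath a p) := by
  have ht : PathTree {w | ∃ v ∈ Λ, w = a :: v} (a :: root) (liftPath a p) := by
    refine ⟨⟨root, h.tree.root_mem, rfl⟩, ?_, ?_, ?_, ?_⟩
    · rintro x ⟨v, hv, rfl⟩ y hy
      simp only [liftPath, List.tail_cons, List.mem_map] at hy
      obtain ⟨z, hz, rfl⟩ := hy
      exact ⟨z, h.tree.mem v hv z hz, rfl⟩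
    · rintro x ⟨v, hv, rfl⟩
      obtain ⟨D, hD⟩ := h.tree.last v hv
      exact ⟨D.map (fun v => a :: v), by simp [liftPath, hD]⟩
    · rintro x ⟨v, hv, rfl⟩ D y R hp
      simp only [liftPath, List.tail_cons] at hp
      obtain ⟨l₁, l₂, e1, e2, e3⟩ := List.map_eq_append_iff.mp hp
      obtain ⟨z, l₃, e4, e5, e6⟩ := List.map_eq_cons_iff.mp e3
      subst e4
      have := h.tree.pre v hv _ _ _ e1
      rw [← e5, ← e2]
      simp [liftPath, this]
    · rintro x ⟨v, hv, rfl⟩
      obtain ⟨R, hR⟩ := h.tree.head v hv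
      exact ⟨R.map (fun v => a :: v), by simp [liftPath, hR]⟩
  refine ⟨ht, ?_⟩
  intro s
  rcases s with _ | ⟨b, s⟩
  · exact conn_nil ht
  · rintro ⟨x, ⟨v, hv, rfl⟩, hxB⟩
    have hba : b = a ∧ s <+: v := List.cons_prefix_cons.mp hxB.2
    obtain ⟨rfl, hsv⟩ := hba
    obtain ⟨e, he, heB, heD, hc⟩ := h.conn s ⟨v, hv, hv, hsv⟩
    refine ⟨b :: e, ⟨e, he, rfl⟩, ⟨⟨e, he, rfl⟩, List.cons_prefix_cons.mpr ⟨rfl, heB.2⟩⟩, ?_, ?_⟩
    · intro y hy hyB
      simp only [liftPath, List.tail_cons, ← List.map_dropLast, List.mem_map] at hy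
      obtain ⟨z, hz, rfl⟩ := hy
      exact heD z hz ⟨h.tree.mem_dn he hz, (List.cons_prefix_cons.mp hyB.2).2⟩
    · rintro x ⟨u, hu, rfl⟩ hxB'
      obtain ⟨R, hR, hRB⟩ := hc u hu ⟨hu, (List.cons_prefix_cons.mp hxB'.2).2⟩
      refine ⟨R.map (fun v => b :: v), by simp [liftPath, hR], ?_⟩
      intro y hy
      obtain ⟨z, hz, rfl⟩ := List.mem_map.mp hy
      have := hRB z hz
      exact ⟨⟨z, this.1, rfl⟩, List.cons_prefix_cons.mpr ⟨rfl, this.2⟩⟩

end lift

section glue

/-- Attach the tree on the words beginning with `1` to the vertex `0 :: y` of the tree on the words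
beginning with `0`. -/
def gluePath (p0 p1 : List (Fin 2) → List (List (Fin 2))) (y : List (Fin 2)) :
    List (Fin 2) → List (List (Fin 2))
  | [] => []
  | c :: v => if c = 0 then (p0 v).map (fun v => 0 :: v)
      else (p0 y).map (fun v => 0 :: v) ++ (p1 v).map (fun v => 1 :: v)

lemma gluePath_zero (p0 p1 : List (Fin 2) → List (List (Fin 2))) (y v : List (Fin 2)) :
    gluePath p0 p1 y (0 :: v) = (p0 v).map (fun v => 0 :: v) := by simp [gluePath]

lemma gluePath_one (p0 p1 : List (Fin 2) → List (List (Fin 2))) (y v : List (Fin 2)) :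
    gluePath p0 p1 y (1 :: v) =
      (p0 y).map (fun v => 0 :: v) ++ (p1 v).map (fun v => 1 :: v) := by simp [gluePath]

lemma compat_glue {Λ0 Λ1 : Set (List (Fin 2))} {r0 r1 : List (Fin 2)}
    {p0 p1 : List (Fin 2) → List (List (Fin 2))} (h0 : Compat Λ0 r0 p0) (h1 : Compat Λ1 r1 p1)
    {y : List (Fin 2)} (hy : y ∈ Λ0) :
    Compat ({w | ∃ v ∈ Λ0, w = 0 :: v} ∪ {w | ∃ v ∈ Λ1, w = 1 :: v}) (0 :: r0)
      (gluePath p0 p1 y) := by
  set Λ : Set (List (Fin 2)) := {w | ∃ v ∈ Λ0, w = 0 :: v} ∪ {w | ∃ v ∈ Λ1, w = 1 :: v} with hΛ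
  have ht : PathTree Λ (0 :: r0) (gluePath p0 p1 y) := by
    refine ⟨Or.inl ⟨r0, h0.tree.root_mem, rfl⟩, ?_, ?_, ?_, ?_⟩
    · rintro x (⟨v, hv, rfl⟩ | ⟨v, hv, rfl⟩) z hz
      · rw [gluePath_zero] at hz
        obtain ⟨u, hu, rfl⟩ := List.mem_map.mp hz
        exact Or.inl ⟨u, h0.tree.mem v hv u hu, rfl⟩
      · rw [gluePath_one] at hz
        rcases List.mem_append.mp hz with hz | hz
        · obtain ⟨u, hu, rfl⟩ := List.mem_map.mp hz
          exact Or.inl ⟨u, h0.tree.mem y hy u hu, rfl⟩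
        · obtain ⟨u, hu, rfl⟩ := List.mem_map.mp hz
          exact Or.inr ⟨u, h1.tree.mem v hv u hu, rfl⟩
    · rintro x (⟨v, hv, rfl⟩ | ⟨v, hv, rfl⟩)
      · obtain ⟨D, hD⟩ := h0.tree.last v hv
        exact ⟨D.map (fun v => 0 :: v), by simp [gluePath_zero, hD]⟩
      · obtain ⟨D, hD⟩ := h1.tree.last v hv
        exact ⟨(p0 y).map (fun v => 0 :: v) ++ D.map (fun v => 1 :: v),
          by simp [gluePath_one, hD]⟩
    · rintro x (⟨v, hv, rfl⟩ | ⟨v, hv, rfl⟩) D z R hp
      · rw [gluePath_zero] at hp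
        obtain ⟨l₁, l₂, e1, e2, e3⟩ := List.map_eq_append_iff.mp hp
        obtain ⟨u, l₃, e4, e5, e6⟩ := List.map_eq_cons_iff.mp e3
        subst e4
        have := h0.tree.pre v hv _ _ _ e1
        rw [← e5, ← e2, gluePath_zero, this]
        simp
      · rw [gluePath_one] at hp
        rcases List.append_eq_append_iff.mp hp with ⟨A, e1, e2⟩ | ⟨A, e1, e2⟩
        · -- `z` in the second part
          obtain ⟨l₁, l₂, e3, e4, e5⟩ := List.map_eq_append_iff.mp e2
          obtain ⟨u, l₃, e6, e7, e8⟩ := List.map_eq_cons_iff.mp e5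
          subst e6
          have := h1.tree.pre v hv _ _ _ e3
          rw [e1, ← e4, ← e7, gluePath_one, this]
          simp
        · rcases A with _ | ⟨z', A⟩
          · simp only [List.nil_append] at e2
            obtain ⟨u, l₃, e6, e7, e8⟩ := List.map_eq_cons_iff.mp e2.symm
            have := h1.tree.pre v hv [] u l₃ e6
            rw [← e7, gluePath_one, this]
            simp only [List.append_nil] at e1
            rw [← e1]
            simp
          · simp only [List.cons_append, List.cons.injEq] at e2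
            obtain ⟨rfl, e2⟩ := e2
            obtain ⟨l₁, l₂, e3, e4, e5⟩ := List.map_eq_append_iff.mp e1
            obtain ⟨u, l₃, e6, e7, e8⟩ := List.map_eq_cons_iff.mp e5
            subst e6
            have := h0.tree.pre y hy _ _ _ e3
            rw [← e4, ← e7, gluePath_zero, this]
            simp
    · rintro x (⟨v, hv, rfl⟩ | ⟨v, hv, rfl⟩)
      · obtain ⟨R, hR⟩ := h0.tree.head v hv
        exact ⟨R.map (fun v => 0 :: v), by simp [gluePath_zero, hR]⟩
      · obtain ⟨R, hR⟩ := h0.tree.head y hy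
        exact ⟨R.map (fun v => 0 :: v) ++ (p1 v).map (fun v => 1 :: v),
          by simp [gluePath_one, hR]⟩
  refine ⟨ht, ?_⟩
  intro s
  rcases s with _ | ⟨b, s⟩
  · exact conn_nil ht
  · have hb : b = 0 ∨ b = 1 := by fin_cases b <;> simp
    rcases hb with rfl | rfl
    · rintro ⟨x, hx, hxB⟩
      obtain ⟨v, hv, hsv⟩ : ∃ v ∈ Λ0, s <+: v := by
        rcases hx with ⟨v, hv, rfl⟩ | ⟨v, hv, rfl⟩
        · exact ⟨v, hv, (List.cons_prefix_cons.mp hxB.2).2⟩
        · exact absurd (List.cons_prefix_cons.mp hxB.2).1 (by decide)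
      obtain ⟨e, he, heB, heD, hc⟩ := h0.conn s ⟨v, hv, hv, hsv⟩
      refine ⟨0 :: e, Or.inl ⟨e, he, rfl⟩, ⟨Or.inl ⟨e, he, rfl⟩,
        List.cons_prefix_cons.mpr ⟨rfl, heB.2⟩⟩, ?_, ?_⟩
      · intro z hz hzB
        rw [gluePath_zero, ← List.map_dropLast, List.mem_map] at hz
        obtain ⟨u, hu, rfl⟩ := hz
        exact heD u hu ⟨h0.tree.mem_dn he hu, (List.cons_prefix_cons.mp hzB.2).2⟩
      · rintro x (⟨u, hu, rfl⟩ | ⟨u, hu, rfl⟩) hxB'
        · obtain ⟨R, hR, hRB⟩ := hc u hu ⟨hu, (List.cons_prefix_cons.mp hxB'.2).2⟩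
          refine ⟨R.map (fun v => 0 :: v), by simp [gluePath_zero, hR], ?_⟩
          intro z hz
          obtain ⟨t, ht, rfl⟩ := List.mem_map.mp hz
          have := hRB t ht
          exact ⟨Or.inl ⟨t, this.1, rfl⟩, List.cons_prefix_cons.mpr ⟨rfl, this.2⟩⟩
        · exact absurd (List.cons_prefix_cons.mp hxB'.2).1 (by decide)
    · rintro ⟨x, hx, hxB⟩
      obtain ⟨v, hv, hsv⟩ : ∃ v ∈ Λ1, s <+: v := by
        rcases hx with ⟨v, hv, rfl⟩ | ⟨v, hv, rfl⟩
        · exact absurd (List.cons_prefix_cons.mp hxB.2).1 (by decide)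
        · exact ⟨v, hv, (List.cons_prefix_cons.mp hxB.2).2⟩
      obtain ⟨e, he, heB, heD, hc⟩ := h1.conn s ⟨v, hv, hv, hsv⟩
      refine ⟨1 :: e, Or.inr ⟨e, he, rfl⟩, ⟨Or.inr ⟨e, he, rfl⟩,
        List.cons_prefix_cons.mpr ⟨rfl, heB.2⟩⟩, ?_, ?_⟩
      · intro z hz hzB
        obtain ⟨D, hD⟩ := h1.tree.last e he
        have e1 : (gluePath p0 p1 y (1 :: e)).dropLast =
            (p0 y).map (fun v => 0 :: v) ++ D.map (fun v => 1 :: v) := by
          rw [gluePath_one, hD]
          simp only [List.map_append, List.map_cons, List.map_nil, ← List.append_assoc]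
          rw [List.dropLast_concat]
        rw [e1] at hz
        rcases List.mem_append.mp hz with hz | hz
        · obtain ⟨u, hu, rfl⟩ := List.mem_map.mp hz
          exact absurd (List.cons_prefix_cons.mp hzB.2).1 (by decide)
        · obtain ⟨u, hu, rfl⟩ := List.mem_map.mp hz
          have hu' : u ∈ (p1 e).dropLast := by rw [hD, List.dropLast_concat]; exact hu
          exact heD u hu' ⟨h1.tree.mem_dn he hu', (List.cons_prefix_cons.mp hzB.2).2⟩
      · rintro x (⟨u, hu, rfl⟩ | ⟨u, hu, rfl⟩) hxB'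
        · exact absurd (List.cons_prefix_cons.mp hxB'.2).1 (by decide)
        · obtain ⟨R, hR, hRB⟩ := hc u hu ⟨hu, (List.cons_prefix_cons.mp hxB'.2).2⟩
          refine ⟨R.map (fun v => 1 :: v), by simp [gluePath_one, hR], ?_⟩
          intro z hz
          obtain ⟨t, ht, rfl⟩ := List.mem_map.mp hz
          have := hRB t ht
          exact ⟨Or.inr ⟨t, this.1, rfl⟩, List.cons_prefix_cons.mpr ⟨rfl, this.2⟩⟩

end glue

/-- Structural induction for binary codes none of whose words begins another one. -/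
lemma code_induction {motive : Set (List (Fin 2)) → Prop}
    (hsing : motive {[]})
    (hlift : ∀ (a : Fin 2) (Λ : Set (List (Fin 2))), Λ.Nonempty → motive Λ →
      motive {w | ∃ v ∈ Λ, w = a :: v})
    (hglue : ∀ Λ0 Λ1 : Set (List (Fin 2)), Λ0.Nonempty → Λ1.Nonempty → motive Λ0 → motive Λ1 →
      motive ({w | ∃ v ∈ Λ0, w = 0 :: v} ∪ {w | ∃ v ∈ Λ1, w = 1 :: v})) :
    ∀ (n : ℕ) (Λ : Set (List (Fin 2))), Λ.Nonempty → (∀ ψ ∈ Λ, ψ.length ≤ n) → PrefixFree Λ →
      motive Λ := by
  intro n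
  induction n with
  | zero =>
    intro Λ hne hlen _
    have : Λ = {[]} := by
      obtain ⟨x, hx⟩ := hne
      ext y
      constructor
      · intro hy
        exact List.length_eq_zero_iff.mp (Nat.le_zero.mp (hlen y hy))
      · intro hy
        rw [Set.mem_singleton_iff.mp hy]
        have := List.length_eq_zero_iff.mp (Nat.le_zero.mp (hlen x hx))
        rwa [this] at hx
    rw [this]; exact hsing
  | succ n ih =>
    intro Λ hne hlen hpf
    by_cases hnil : [] ∈ Λ
    · have : Λ = {[]} := by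
        ext y
        constructor
        · intro hy
          exact (hpf [] hnil y hy List.nil_prefix).symm
        · intro hy
          rw [Set.mem_singleton_iff.mp hy]; exact hnil
      rw [this]; exact hsing
    · set Λ0 : Set (List (Fin 2)) := {v | 0 :: v ∈ Λ} with h0
      set Λ1 : Set (List (Fin 2)) := {v | 1 :: v ∈ Λ} with h1
      have hΛ : Λ = {w | ∃ v ∈ Λ0, w = 0 :: v} ∪ {w | ∃ v ∈ Λ1, w = 1 :: v} := by
        ext y
        constructor
        · intro hy
          rcases y with _ | ⟨c, v⟩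
          · exact absurd hy hnil
          · have hb : c = 0 ∨ c = 1 := by fin_cases c <;> simp
            rcases hb with rfl | rfl
            · exact Or.inl ⟨v, hy, rfl⟩
            · exact Or.inr ⟨v, hy, rfl⟩
        · rintro (⟨v, hv, rfl⟩ | ⟨v, hv, rfl⟩)
          · exact hv
          · exact hv
      have hl0 : ∀ ψ ∈ Λ0, ψ.length ≤ n := fun ψ hψ => by
        have := hlen _ hψ
        simpa using this
      have hl1 : ∀ ψ ∈ Λ1, ψ.length ≤ n := fun ψ hψ => by
        have := hlen _ hψ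
        simpa using this
      have hp0 : PrefixFree Λ0 := fun ψ hψ ψ' hψ' hp => by
        have := hpf _ hψ _ hψ' (List.cons_prefix_cons.mpr ⟨rfl, hp⟩)
        simpa using this
      have hp1 : PrefixFree Λ1 := fun ψ hψ ψ' hψ' hp => by
        have := hpf _ hψ _ hψ' (List.cons_prefix_cons.mpr ⟨rfl, hp⟩)
        simpa using this
      by_cases hn0 : Λ0.Nonempty <;> by_cases hn1 : Λ1.Nonempty
      · rw [hΛ]
        exact hglue _ _ hn0 hn1 (ih _ hn0 hl0 hp0) (ih _ hn1 hl1 hp1)
      · have : Λ1 = ∅ := Set.not_nonempty_iff_eq_empty.mp hn1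
        rw [hΛ, this]
        have := hlift 0 _ hn0 (ih _ hn0 hl0 hp0)
        simpa using this
      · have : Λ0 = ∅ := Set.not_nonempty_iff_eq_empty.mp hn0
        rw [hΛ, this]
        have := hlift 1 _ hn1 (ih _ hn1 hl1 hp1)
        simpa using this
      · exfalso
        obtain ⟨x, hx⟩ := hne
        rw [hΛ] at hx
        rcases hx with ⟨v, hv, -⟩ | ⟨v, hv, -⟩
        · exact hn0 ⟨v, hv⟩
        · exact hn1 ⟨v, hv⟩

/-- A compatible tree with short paths. -/
theorem exists_short (n : ℕ) (Λ : Set (List (Fin 2))) (hne : Λ.Nonempty)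
    (hlen : ∀ ψ ∈ Λ, ψ.length ≤ n) (hpf : PrefixFree Λ) :
    ∃ root path, Compat Λ root path ∧ ∀ x ∈ Λ, (path x).length ≤ x.length + 1 := by
  refine code_induction (motive := fun Λ => ∃ root path, Compat Λ root path ∧
    ∀ x ∈ Λ, (path x).length ≤ x.length + 1) ?_ ?_ ?_ n Λ hne hlen hpf
  · exact ⟨[], _, compat_singleton, by simp⟩
  · rintro a Λ _ ⟨root, path, hc, hl⟩
    refine ⟨_, _, compat_lift a hc, ?_⟩
    rintro x ⟨v, hv, rfl⟩
    have := hl v hv
    simp only [liftPath, List.tail_cons, List.length_map, List.length_cons]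
    omega
  · rintro Λ0 Λ1 hn0 hn1 ⟨r0, p0, hc0, hl0⟩ ⟨r1, p1, hc1, hl1⟩
    refine ⟨_, _, compat_glue hc0 hc1 hc0.tree.root_mem, ?_⟩
    rintro x (⟨v, hv, rfl⟩ | ⟨v, hv, rfl⟩)
    · have := hl0 v hv
      simp only [gluePath_zero, List.length_map, List.length_cons]
      omega
    · have := hl1 v hv
      simp only [gluePath_one, List.length_append, List.length_map, List.length_cons,
        hc0.tree.path_root, List.length_nil]
      omega

/-- A compatible tree which is a single path. -/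
theorem exists_chain (n : ℕ) (Λ : Set (List (Fin 2))) (hne : Λ.Nonempty)
    (hlen : ∀ ψ ∈ Λ, ψ.length ≤ n) (hpf : PrefixFree Λ) :
    ∃ root path, Compat Λ root path ∧ ∃ y ∈ Λ, ∀ x ∈ Λ, x ∈ path y := by
  refine code_induction (motive := fun Λ => ∃ root path, Compat Λ root path ∧
    ∃ y ∈ Λ, ∀ x ∈ Λ, x ∈ path y) ?_ ?_ ?_ n Λ hne hlen hpf
  · exact ⟨[], _, compat_singleton, [], rfl, by simp⟩
  · rintro a Λ _ ⟨root, path, hc, y, hy, hl⟩
    refine ⟨_, _, compat_lift a hc, a :: y, ⟨y, hy, rfl⟩, ?_⟩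
    rintro x ⟨v, hv, rfl⟩
    simp only [liftPath, List.tail_cons, List.mem_map]
    exact ⟨v, hl v hv, rfl⟩
  · rintro Λ0 Λ1 hn0 hn1 ⟨r0, p0, hc0, y0, hy0, hl0⟩ ⟨r1, p1, hc1, y1, hy1, hl1⟩
    refine ⟨_, _, compat_glue hc0 hc1 hy0, 1 :: y1, Or.inr ⟨y1, hy1, rfl⟩, ?_⟩
    rintro x (⟨v, hv, rfl⟩ | ⟨v, hv, rfl⟩)
    · rw [gluePath_one]
      exact List.mem_append_left _ (List.mem_map.mpr ⟨v, hl0 v hv, rfl⟩)
    · rw [gluePath_one]
      exact List.mem_append_right _ (List.mem_map.mpr ⟨v, hl1 v hv, rfl⟩)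

end Pool.Agent.Lib.MP_4d23dd_co
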